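import Mathlib

/-!
# The double commutant theorem
-/

set_option linter.unusedSectionVars false

namespace Pool.Agent.Q55.Pg

open Module

variable {K V : Type*} [Field K] [AddCommGroup V] [Module K V] [FiniteDimensional K V]

/-- **The double commutant theorem.** Let `R` be an algebra of endomorphisms such that every stable
subspace has a stable complement. The endomorphisms which commute with the commutant of `R` are the
elements of `R`. -/
theorem mem_of_bicomm (R : Subalgebra K (Module.End K V))
    (hR : ∀ U : Submodule K V, (∀ a ∈ R, ∀ u ∈ U, a u ∈ U) →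
      ∃ U' : Submodule K V, (∀ a ∈ R, ∀ u ∈ U', a u ∈ U') ∧ IsCompl U U')
    (b : Module.End K V)
    (hb : ∀ P : Module.End K V, (∀ a ∈ R, a * P = P * a) → b * P = P * b) : b ∈ R := by
  have hsm : ∀ (r : R) (v : V), r • v = (r : Module.End K V) v := fun r v => rfl
  -- subspaces and submodules
  let toK : Submodule R V → Submodule K V := fun U =>
    { carrier := U
      zero_mem' := U.zero_mem
      add_mem' := U.add_mem
      smul_mem' := fun c x hx => by
        have h1 := U.smul_mem (algebraMap K R c) hx
        rw [hsm] at h1
        have h2 : ((algebraMap K R c : R) : Module.End K V) x = c • x := by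
          rw [Subalgebra.coe_algebraMap, Module.algebraMap_end_apply]
        rwa [h2] at h1 }
  have hss : IsSemisimpleModule R V := by
    refine (isSemisimpleModule_iff R V).2 ⟨fun U => ?_⟩
    obtain ⟨U', h1, h2⟩ := hR (toK U) fun a ha u hu => U.smul_mem (⟨a, ha⟩ : R) hu
    let U'' : Submodule R V :=
      { carrier := U'
        zero_mem' := U'.zero_mem
        add_mem' := U'.add_mem
        smul_mem' := fun c x hx => h1 c.1 c.2 x hx }
    refine ⟨U'', ?_⟩
    rw [isCompl_iff, disjoint_iff, codisjoint_iff] at h2 ⊢
    constructor
    · rw [eq_bot_iff]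
      rintro x ⟨hx, hx'⟩
      have h3 : x ∈ toK U ⊓ U' := ⟨hx, hx'⟩
      rw [h2.1] at h3
      exact h3
    · rw [eq_top_iff]
      rintro x -
      have h3 : x ∈ toK U ⊔ U' := by rw [h2.2]; trivial
      obtain ⟨y, hy, z, hz, rfl⟩ := Submodule.mem_sup.1 h3
      exact Submodule.add_mem_sup (show y ∈ U from hy) (show z ∈ U'' from hz)
  -- the endomorphism
  let f : Module.End (Module.End R V) V :=
    { toFun := b
      map_add' := map_add b
      map_smul' := fun g v => by
        let P : Module.End K V :=
          { toFun := g
            map_add' := map_add g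
            map_smul' := fun c x => by
              have h1 : ∀ x : V, c • x = (algebraMap K R c : R) • x := by
                intro x
                rw [hsm, Subalgebra.coe_algebraMap, Module.algebraMap_end_apply]
              rw [RingHom.id_apply, h1, h1, map_smul] }
        have h1 : b * P = P * b := hb P fun a ha => by
          refine LinearMap.ext fun v => ?_
          exact (map_smul g (⟨a, ha⟩ : R) v).symm
        exact LinearMap.congr_fun h1 v }
  classical
  let B := Module.finBasis K V
  obtain ⟨r, hr⟩ := jacobson_density (R := R) f (Finset.univ.image B)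
  have h1 : b = (r : Module.End K V) := by
    refine B.ext fun i => ?_
    exact hr (B i) (Finset.mem_image_of_mem _ (Finset.mem_univ i))
  rw [h1]
  exact r.2

/-- The same for the algebra generated by a set. A property of endomorphisms which is stable under
sums, multiples and under the composition with the elements of the set holds for all elements of the
double commutant. -/
theorem bicomm_induction (G : Set (Module.End K V))
    (hG : ∀ U : Submodule K V, (∀ a ∈ G, ∀ u ∈ U, a u ∈ U) →
      ∃ U' : Submodule K V, (∀ a ∈ G, ∀ u ∈ U', a u ∈ U') ∧ IsCompl U U')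
    {b : Module.End K V}
    (hb : ∀ P : Module.End K V, (∀ a ∈ G, a * P = P * a) → b * P = P * b) :
    b ∈ Algebra.adjoin K G := by
  have h0 : ∀ U : Submodule K V, (∀ a ∈ G, ∀ u ∈ U, a u ∈ U) →
      ∀ a ∈ Algebra.adjoin K G, ∀ u ∈ U, a u ∈ U := by
    intro U hU a ha
    induction ha using Algebra.adjoin_induction with
    | mem x hx => exact hU x hx
    | algebraMap r =>
      intro u hu
      rw [Module.algebraMap_end_apply]
      exact U.smul_mem _ hu
    | add x y _ _ hx hy => exact fun u hu => U.add_mem (hx u hu) (hy u hu)
    | mul x y _ _ hx hy => exact fun u hu => hx _ (hy u hu)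
  refine mem_of_bicomm _ (fun U hU => ?_) b fun P hP => hb P fun a ha =>
    hP a (Algebra.subset_adjoin ha)
  obtain ⟨U', h1, h2⟩ := hG U fun a ha => hU a (Algebra.subset_adjoin ha)
  exact ⟨U', h0 U' h1, h2⟩

end Pool.Agent.Q55.Pg
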