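import Mathlib

/-!
# Splittings of words
-/

set_option linter.unusedSectionVars false

namespace Pool.Agent.Q55.Pg

open Module

section spl

variable {ι : Type*}

/-- The splittings of a word into two complementary subwords. -/
def spl : List ι → List (List ι × List ι)
  | [] => [([], [])]
  | i :: w => (spl w).map (fun p => (i :: p.1, p.2)) ++ (spl w).map (fun p => (p.1, i :: p.2))

theorem spl_prod {C : Type*} [Ring C] (a b : ι → C) (hab : ∀ i j, a i * b j = b j * a i) :
    ∀ w : List ι, (w.map fun i => a i + b i).prod =
      ((spl w).map fun p => (p.1.map a).prod * (p.2.map b).prod).sum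
  | [] => by simp [spl]
  | i :: w => by
    have hcomm : ∀ (u : List ι), b i * (u.map a).prod = (u.map a).prod * b i := by
      intro u
      induction u with
      | nil => simp
      | cons j u ih =>
        rw [List.map_cons, List.prod_cons, ← mul_assoc, ← hab j i, mul_assoc, ih, mul_assoc]
    rw [List.map_cons, List.prod_cons, spl_prod a b hab w, add_mul, spl, List.map_append,
      List.sum_append, List.map_map, List.map_map]
    congr 1
    · rw [← List.sum_map_mul_left]
      congr 1
      refine List.map_congr_left fun p _ => ?_
      rw [Function.comp_apply, List.map_cons, List.prod_cons, mul_assoc]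
    · rw [← List.sum_map_mul_left]
      congr 1
      refine List.map_congr_left fun p _ => ?_
      rw [Function.comp_apply, List.map_cons, List.prod_cons, ← mul_assoc, hcomm, mul_assoc]

theorem spl_add : ∀ (w : List ι), ∀ p ∈ spl w, (p.1 : Multiset ι) + p.2 = w
  | [], p, hp => by
    rw [spl, List.mem_singleton] at hp
    subst hp
    rfl
  | i :: w, p, hp => by
    rw [spl, List.mem_append, List.mem_map, List.mem_map] at hp
    rcases hp with ⟨p', hp', rfl⟩ | ⟨p', hp', rfl⟩
    · rw [← Multiset.cons_coe, ← Multiset.cons_coe, Multiset.cons_add, spl_add w p' hp']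
    · rw [← Multiset.cons_coe, ← Multiset.cons_coe, Multiset.add_cons, spl_add w p' hp']

theorem spl_len (w : List ι) (p : List ι × List ι) (hp : p ∈ spl w) :
    p.1.length + p.2.length = w.length := by
  have h := congrArg Multiset.card (spl_add w p hp)
  rwa [Multiset.card_add, Multiset.coe_card, Multiset.coe_card, Multiset.coe_card] at h

variable [DecidableEq ι] {K : Type*} [Field K]

theorem spl_nil_count : ∀ w : List ι,
    ((spl w).map fun p => if p.2 = [] then (1 : K) else 0).sum = 1
  | [] => by simp [spl]
  | i :: w => by
    rw [spl, List.map_append, List.sum_append, List.map_map, List.map_map]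
    have h1 : ((fun p : List ι × List ι => if p.2 = [] then (1 : K) else 0) ∘
        fun p : List ι × List ι => (i :: p.1, p.2)) =
          fun p => if p.2 = [] then (1 : K) else 0 := rfl
    have h2 : ((fun p : List ι × List ι => if p.2 = [] then (1 : K) else 0) ∘
        fun p : List ι × List ι => (p.1, i :: p.2)) = fun p => 0 := by
      funext p
      rw [Function.comp_apply, if_neg (List.cons_ne_nil _ _)]
    rw [h1, h2, spl_nil_count w]
    simp

theorem spl_count (i : ι) : ∀ w : List ι,
    ((spl w).map fun p => if p.2 = [i] then (1 : K) else 0).sum = (w.count i : K)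
  | [] => by simp [spl]
  | j :: w => by
    rw [spl, List.map_append, List.sum_append, List.map_map, List.map_map]
    have h1 : ((fun p : List ι × List ι => if p.2 = [i] then (1 : K) else 0) ∘
        fun p : List ι × List ι => (j :: p.1, p.2)) =
          fun p => if p.2 = [i] then (1 : K) else 0 := rfl
    have h2 : ((fun p : List ι × List ι => if p.2 = [i] then (1 : K) else 0) ∘
        fun p : List ι × List ι => (p.1, j :: p.2)) = fun p => (if j = i then 1 else 0) *
          (if p.2 = [] then (1 : K) else 0) := by
      funext p
      rw [Function.comp_apply]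
      by_cases hj : j = i
      · subst hj
        simp
      · simp [hj]
    rw [h1, h2, spl_count i w, List.sum_map_mul_left, spl_nil_count, mul_one, List.count_cons]
    by_cases hj : j = i
    · subst hj
      simp
    · simp [hj]

/-- The function `φ` on words is dual to the multiset `s`: it vanishes on the words which are
shorter, and on the words of the same length it is the characteristic function of the words with
content `s`, up to a nonzero factor. -/
def Dual (s : Multiset ι) (φ : List ι → K) : Prop :=
  (∀ w : List ι, w.length < Multiset.card s → φ w = 0) ∧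
    ∃ c : K, c ≠ 0 ∧ ∀ w : List ι, w.length = Multiset.card s →
      φ w = if (w : Multiset ι) = s then c else 0

theorem Dual.step [CharZero K] {s : Multiset ι} {φ : List ι → K} (h : Dual s φ) (i : ι)
    {ψ : List ι → K} (h0 : ψ [] = 0) (h1 : ∀ j, ψ [j] = if j = i then 1 else 0) :
    Dual (i ::ₘ s) fun w => ((spl w).map fun p => φ p.1 * ψ p.2).sum := by
  obtain ⟨hφ, c, hc, hφ'⟩ := h
  constructor
  · intro w hw
    rw [Multiset.card_cons] at hw
    refine List.sum_eq_zero fun x hx => ?_
    obtain ⟨p, hp, rfl⟩ := List.mem_map.1 hx
    have h2 := spl_len w p hp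
    rcases Nat.lt_or_ge p.1.length (Multiset.card s) with h3 | h3
    · rw [hφ _ h3, zero_mul]
    · have h4 : p.2.length = 0 := by omega
      rw [List.length_eq_zero_iff.1 h4, h0, mul_zero]
  · refine ⟨c * ((i ::ₘ s).count i : K), mul_ne_zero hc ?_, fun w hw => ?_⟩
    · rw [Multiset.count_cons_self]
      exact Nat.cast_ne_zero.2 (Nat.succ_ne_zero _)
    · rw [Multiset.card_cons] at hw
      have h5 : ((spl w).map fun p => φ p.1 * ψ p.2) = (spl w).map fun p =>
          (if (w : Multiset ι) = i ::ₘ s then c else 0) * (if p.2 = [i] then (1 : K) else 0) := by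
        refine List.map_congr_left fun p hp => ?_
        have h2 := spl_len w p hp
        have h6 := spl_add w p hp
        rcases Nat.lt_or_ge p.1.length (Multiset.card s) with h3 | h3
        · rw [hφ _ h3, zero_mul]
          have h7 : p.2 ≠ [i] := by
            intro h7
            rw [h7, List.length_singleton] at h2
            omega
          rw [if_neg h7, mul_zero]
        · rcases Nat.lt_or_ge (Multiset.card s) p.1.length with h4 | h4
          · have h7 : p.2.length = 0 := by omega
            rw [List.length_eq_zero_iff.1 h7, h0, mul_zero,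
              if_neg (show ¬(([] : List ι) = [i]) by simp), mul_zero]
          · have h7 : p.1.length = Multiset.card s := le_antisymm h4 h3
            obtain ⟨j, hj⟩ := List.length_eq_one_iff.1 (show p.2.length = 1 by omega)
            rw [hφ' _ h7, hj, h1]
            by_cases hji : j = i
            · subst hji
              rw [if_pos rfl, if_pos rfl]
              have h8 : (w : Multiset ι) = j ::ₘ s ↔ (p.1 : Multiset ι) = s := by
                rw [← h6, hj, Multiset.coe_singleton, ← Multiset.singleton_add, add_comm,
                  add_right_inj]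
              simp only [h8]
            · rw [if_neg hji, if_neg (show ¬([j] = [i]) by simpa using hji), mul_zero, mul_zero]
      change ((spl w).map fun p => φ p.1 * ψ p.2).sum = _
      rw [h5, List.sum_map_mul_left, spl_count]
      split_ifs with h9
      · rw [← h9, Multiset.coe_count]
      · rw [zero_mul]

/-- **Linear independence.** -/
theorem linInd_of_dual {A : Type*} [AddCommGroup A] [Module K A] (x : List ι → A) {N : ℕ}
    (h : ∀ s : Multiset ι, Multiset.card s ≤ N → ∃ F : A →ₗ[K] K, Dual s fun w => F (x w)) :
    LinearIndependent K fun s : {s : Multiset ι // Multiset.card s ≤ N} => x s.1.toList := by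
  classical
  rw [linearIndependent_iff']
  intro t g hg s hs
  by_contra hcon
  -- a multiset with nonzero coefficient and of maximal cardinality
  obtain ⟨s₀, hs₀, hmax⟩ := Finset.exists_max_image (t.filter fun s => g s ≠ 0)
    (fun s => Multiset.card s.1) ⟨s, Finset.mem_filter.2 ⟨hs, hcon⟩⟩
  rw [Finset.mem_filter] at hs₀
  obtain ⟨F, hF, c, hc, hF'⟩ := h s₀.1 s₀.2
  have h1 := congrArg F hg
  rw [map_sum, map_zero, Finset.sum_eq_single_of_mem s₀ hs₀.1] at h1
  · rw [map_smul, smul_eq_mul] at h1
    have h2 : F (x s₀.1.toList) = _ := hF' s₀.1.toList (Multiset.length_toList _)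
    rw [Multiset.coe_toList, if_pos rfl] at h2
    rw [h2] at h1
    exact (mul_ne_zero hs₀.2 hc) h1
  · intro s hs hne
    rw [map_smul, smul_eq_mul]
    by_cases h0 : g s = 0
    · rw [h0, zero_mul]
    · have h2 := hmax s (Finset.mem_filter.2 ⟨hs, h0⟩)
      rcases Nat.lt_or_ge (Multiset.card s.1) (Multiset.card s₀.1) with h3 | h3
      · have h4 : F (x s.1.toList) = _ := hF s.1.toList (by rwa [Multiset.length_toList])
        rw [h4, mul_zero]
      · have h4 : F (x s.1.toList) = _ :=
          hF' s.1.toList (by rw [Multiset.length_toList]; exact le_antisymm h2 h3)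
        rw [h4, Multiset.coe_toList, if_neg (fun h => hne (Subtype.ext h)), mul_zero]

/-- The number of multisets. -/
theorem card_le_of_linInd {A : Type*} [AddCommGroup A] [Module K A] {m N : ℕ}
    (x : Multiset (Fin m) → A) (U : Submodule K A) [FiniteDimensional K U]
    (hU : ∀ s, Multiset.card s ≤ N → x s ∈ U)
    (h : LinearIndependent K fun s : {s : Multiset (Fin m) // Multiset.card s ≤ N} => x s.1) :
    N ^ m ≤ m ^ m * finrank K U := by
  classical
  let ms : (Fin m → Fin (N / m + 1)) → Multiset (Fin m) := fun f =>
    ∑ i, (f i : ℕ) • ({i} : Multiset (Fin m))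
  have hcard : ∀ f, Multiset.card (ms f) ≤ N := by
    intro f
    change Multiset.card (∑ i, (f i : ℕ) • ({i} : Multiset (Fin m))) ≤ N
    rw [Multiset.card_sum]
    have h1 : ∀ i ∈ Finset.univ, Multiset.card ((f i : ℕ) • ({i} : Multiset (Fin m))) ≤ N / m := by
      intro i _
      rw [Multiset.card_nsmul, Multiset.card_singleton, mul_one]
      exact Nat.lt_succ_iff.1 (f i).2
    refine (Finset.sum_le_sum h1).trans ?_
    rw [Finset.sum_const, Finset.card_univ, Fintype.card_fin, smul_eq_mul]
    exact Nat.mul_div_le N m
  have hcount : ∀ f i, Multiset.count i (ms f) = f i := by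
    intro f i
    change Multiset.count i (∑ j, (f j : ℕ) • ({j} : Multiset (Fin m))) = f i
    rw [Multiset.count_sum', Finset.sum_eq_single i]
    · rw [Multiset.count_nsmul, Multiset.count_singleton_self, mul_one]
    · intro j _ hj
      rw [Multiset.count_nsmul, Multiset.count_singleton, if_neg (Ne.symm hj), mul_zero]
    · intro h
      exact absurd (Finset.mem_univ i) h
  have hinj : Function.Injective fun f => (⟨ms f, hcard f⟩ :
      {s : Multiset (Fin m) // Multiset.card s ≤ N}) := by
    intro f g hfg
    funext i
    apply Fin.ext
    rw [← hcount f i, ← hcount g i]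
    exact congrArg (fun s : {s : Multiset (Fin m) // Multiset.card s ≤ N} =>
      Multiset.count i s.1) hfg
  have h2 := h.comp _ hinj
  have h3 : LinearIndependent K fun f : Fin m → Fin (N / m + 1) =>
      (⟨x (ms f), hU _ (hcard f)⟩ : U) := by
    refine LinearIndependent.of_comp U.subtype ?_
    exact h2
  have h4 := h3.fintype_card_le_finrank
  rw [Fintype.card_pi, Finset.prod_const, Fintype.card_fin, Finset.card_univ,
    Fintype.card_fin] at h4
  rcases Nat.eq_zero_or_pos m with rfl | hm
  · simpa using h4
  · have h5 : N ≤ m * (N / m + 1) := by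
      have := Nat.lt_mul_div_succ N hm
      omega
    calc N ^ m ≤ (m * (N / m + 1)) ^ m := Nat.pow_le_pow_left h5 m
      _ = m ^ m * (N / m + 1) ^ m := mul_pow _ _ _
      _ ≤ _ := Nat.mul_le_mul_left _ h4

end spl

section duals

variable {K A ι : Type*} [Field K] [Ring A] [Algebra K A]

/-- Dual linear forms. -/
theorem exists_duals [DecidableEq ι] (Y : ι → A)
    (h : LinearIndependent K (fun o : Option ι => o.elim 1 Y)) :
    ∃ (ξ : ι → (A →ₗ[K] K)) (ε : A →ₗ[K] K), (∀ i, ξ i 1 = 0) ∧
      (∀ i j, ξ i (Y j) = if j = i then 1 else 0) ∧ ε 1 = 1 := by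
  obtain ⟨g, hg⟩ := LinearMap.exists_leftInverse_of_injective
    (Finsupp.linearCombination K (fun o : Option ι => o.elim 1 Y))
    (LinearMap.ker_eq_bot.2 h)
  have h1 : ∀ o : Option ι, g (o.elim 1 Y) = Finsupp.single o 1 := by
    intro o
    have h2 := LinearMap.congr_fun hg (Finsupp.single o 1)
    rw [LinearMap.comp_apply, Finsupp.linearCombination_single, one_smul] at h2
    exact h2
  refine ⟨fun i => Finsupp.lapply (some i) ∘ₗ g, Finsupp.lapply none ∘ₗ g, fun i => ?_,
    fun i j => ?_, ?_⟩
  · have h2 : g 1 = Finsupp.single none 1 := h1 none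
    rw [LinearMap.comp_apply, h2, Finsupp.lapply_apply, Finsupp.single_apply, if_neg (by simp)]
  · have h2 : g (Y j) = Finsupp.single (some j) 1 := h1 (some j)
    rw [LinearMap.comp_apply, h2, Finsupp.lapply_apply, Finsupp.single_apply]
    simp
  · have h2 : g 1 = Finsupp.single none 1 := h1 none
    rw [LinearMap.comp_apply, h2, Finsupp.lapply_apply, Finsupp.single_eq_same]

end duals

end Pool.Agent.Q55.Pg
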