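import Pool.Agent.Q50.DR.Dim
import Pool.Agent.Q55.Pg.Spl

/-!
# The action of an endomorphism on the cohomology of the powers as a derivation
-/

open CategoryTheory AlgebraicGeometry TensorProduct

universe u

set_option linter.unusedSectionVars false

namespace Pool.Agent.Q55.Pg

open Module Pool.Agent.H204R3.SP Pool.Agent.W516.DR
open Pool.Agent.H914 Pool.Agent.H914.VarClass Pool.Agent.H914.VarClass.Obj
  Pool.Agent.H914.WeilCohomology
open Pool.Agent.Y133.Half Pool.Agent.Y121.AH Pool.Agent.Q50.FP Pool.Agent.W516.KC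
open Pool.Agent.Q50.DR

variable {k : Type u} [Field k] {𝒱 : VarClass k} {ops : CycleOps 𝒱}
  {W : WeilCohomology.{u, 0} ops} {X : 𝒱.Obj} {n : ℕ}

theorem mpr_zero (v : Fin 1 → W.H X) : mpr W X 0 v = v 0 := by
  rw [mpr_apply, List.ofFn_succ, List.ofFn_zero, List.prod_singleton]
  exact W.map_id _ _

theorem mpr_succ (v : Fin (n + 2) → W.H X) : mpr W X (n + 1) v =
    W.map (fst (pw X n) X) (mpr W X n fun i => v i.castSucc) *
      W.map (snd (pw X n) X) (v (Fin.last _)) := by
  have h1 : mpr W X (n + 1) v = W.map (pfst X n) (mpr W X n fun i => v i.castSucc) *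
      W.map (psnd X n) (v (Fin.last _)) := by
    rw [mpr_apply, mpr_apply]
    conv_lhs => rw [List.ofFn_succ', List.prod_concat, prj_last]
    rw [map_list_prod, List.map_ofFn]
    congr 3
    funext i
    rw [Function.comp_apply, prj_castSucc, W.map_comp]
  exact h1

/-- The action as a derivation. -/
noncomputable def dpw (W : WeilCohomology.{u, 0} ops) (X : 𝒱.Obj) :
    ∀ n, Module.End W.K (W.H X) → Module.End W.K (W.H (pw X n))
  | 0, Z => Z
  | n + 1, Z => extOp W (dpw W X n Z) (1 : Module.End W.K (W.H X)) +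
      extOp W (1 : Module.End W.K (W.H (pw X n))) Z

theorem dpw_succ (Z : Module.End W.K (W.H X)) : dpw W X (n + 1) Z =
    extOp W (dpw W X n Z) (1 : Module.End W.K (W.H X)) +
      extOp W (1 : Module.End W.K (W.H (pw X n))) Z := rfl

theorem dpw_mpr (Z : Module.End W.K (W.H X)) : ∀ (n : ℕ) (v : Fin (n + 1) → W.H X),
    dpw W X n Z (mpr W X n v) = ∑ i, mpr W X n (Function.update v i (Z (v i)))
  | 0, v => by
    rw [Fin.sum_univ_one]
    rw [show mpr W X 0 (Function.update v 0 (Z (v 0))) = Function.update v 0 (Z (v 0)) 0 from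
      mpr_zero _, Function.update_self]
    exact congrArg Z (mpr_zero v)
  | n + 1, v => by
    have h1 : dpw W X (n + 1) Z (mpr W X (n + 1) v) =
        W.map (fst (pw X n) X) (dpw W X n Z (mpr W X n fun i => v i.castSucc)) *
          W.map (snd (pw X n) X) (v (Fin.last _)) +
        W.map (fst (pw X n) X) (mpr W X n fun i => v i.castSucc) *
          W.map (snd (pw X n) X) (Z (v (Fin.last _))) := by
      rw [mpr_succ]
      exact congrArg₂ (· + ·)
        (extOp_tmul (W := W) (dpw W X n Z) (1 : Module.End W.K (W.H X))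
          (mpr W X n fun i => v i.castSucc) (v (Fin.last _)))
        (extOp_tmul (W := W) (1 : Module.End W.K (W.H (pw X n))) Z
          (mpr W X n fun i => v i.castSucc) (v (Fin.last _)))
    rw [h1, dpw_mpr Z n, map_sum, Finset.sum_mul]
    conv_rhs => rw [Fin.sum_univ_castSucc]
    congr 1
    · refine Finset.sum_congr rfl fun i _ => ?_
      rw [mpr_succ]
      congr 2
      · congr 1
        funext j
        by_cases hj : j = i
        · subst hj
          rw [Function.update_self, Function.update_self]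
        · rw [Function.update_of_ne hj, Function.update_of_ne fun h => hj
            (Fin.castSucc_injective _ h)]
      · rw [Function.update_of_ne (Fin.castSucc_lt_last i).ne']
    · rw [mpr_succ, Function.update_self]
      congr 3
      funext j
      rw [Function.update_of_ne (Fin.castSucc_lt_last j).ne]

/-- Linear maps on the cohomology of a power are determined by their values on products. -/
theorem mpr_ext {M : Type*} [AddCommGroup M] [Module W.K M] {f g : W.H (pw X n) →ₗ[W.K] M}
    (h : ∀ v, f (mpr W X n v) = g (mpr W X n v)) : f = g := by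
  let e := Module.finBasis W.K (W.H X)
  refine (wb e n).ext fun w => ?_
  rw [← mpr_wb]
  exact h _

theorem dpw_add (Z Z' : Module.End W.K (W.H X)) :
    dpw W X n (Z + Z') = dpw W X n Z + dpw W X n Z' := by
  refine mpr_ext fun v => ?_
  rw [LinearMap.add_apply, dpw_mpr, dpw_mpr, dpw_mpr, ← Finset.sum_add_distrib]
  refine Finset.sum_congr rfl fun i _ => ?_
  rw [LinearMap.add_apply, MultilinearMap.map_update_add]

theorem dpw_smul (r : W.K) (Z : Module.End W.K (W.H X)) :
    dpw W X n (r • Z) = r • dpw W X n Z := by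
  refine mpr_ext fun v => ?_
  rw [LinearMap.smul_apply, dpw_mpr, dpw_mpr, Finset.smul_sum]
  refine Finset.sum_congr rfl fun i _ => ?_
  rw [LinearMap.smul_apply, MultilinearMap.map_update_smul]

/-- The action as a linear map. -/
noncomputable def dpwL (W : WeilCohomology.{u, 0} ops) (X : 𝒱.Obj) (n : ℕ) :
    Module.End W.K (W.H X) →ₗ[W.K] Module.End W.K (W.H (pw X n)) where
  toFun := dpw W X n
  map_add' := dpw_add
  map_smul' := dpw_smul

theorem dpwL_apply (Z : Module.End W.K (W.H X)) : dpwL W X n Z = dpw W X n Z := rfl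

/-- The operators of a family of derivations. -/
theorem drv_dpw {A : ∀ Y : 𝒱.Obj, Module.End W.K (W.H Y)} {t : W.K} (hA : Drv W A t) :
    A (pw X n) = dpw W X n (A X) := by
  refine mpr_ext fun v => ?_
  rw [dpw_mpr, hA.mpr]

theorem dpw_dg : dpw W X n (dg W X) = dg W (pw X n) := (drv_dpw dg_drv).symm

theorem dpw_id : dpw W X n 1 = ((n : W.K) + 1) • 1 := by
  refine mpr_ext fun v => ?_
  rw [dpw_mpr]
  have h1 : ∀ i, mpr W X n (Function.update v i ((1 : Module.End W.K (W.H X)) (v i))) =
      mpr W X n v := fun i => by rw [Module.End.one_apply, Function.update_eq_self]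
  rw [Finset.sum_congr rfl fun i _ => h1 i, Finset.sum_const, Finset.card_univ, Fintype.card_fin,
    LinearMap.smul_apply, Module.End.one_apply, ← Nat.cast_smul_eq_nsmul W.K]
  push_cast
  rfl

theorem dpw_dn : dpw W X n (dn W X) = dn W (pw X n) := by
  have h1 : dpwL W X n (dn W X) = dpwL W X n (dg W X) - (X.dim : W.K) • dpwL W X n 1 := by
    rw [← map_smul, ← map_sub]
    rfl
  rw [dpwL_apply, dpwL_apply, dpwL_apply, dpw_dg, dpw_id, smul_smul] at h1
  rw [h1, dn, dim_pw]
  congr 2
  push_cast
  ring

/-- The components of a family of derivations. -/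
theorem cE_dpw [Algebra W.K ℂ] {A : ∀ Y : 𝒱.Obj, Module.End (baseW W ℂ).K ((baseW W ℂ).H Y)}
    {t : (baseW W ℂ).K} (hA : Drv (baseW W ℂ) A t) (ν : ℂ →ₗ[W.K] W.K) :
    cE ν (A (pw X n)) = dpw W X n (cE ν (A X)) := by
  refine mpr_ext fun v => ?_
  rw [dpw_mpr, cE_mpr hA]

/-! ### Bilinear forms -/

/-- The form in `2 (n + 1)` variables given by a bilinear form. -/
noncomputable def nst (W : WeilCohomology.{u, 0} ops) (X : 𝒱.Obj) (n : ℕ)
    (B : W.H (pw X n) →ₗ[W.K] W.H (pw X n) →ₗ[W.K] W.K) :
    MultilinearMap W.K (fun _ : Fin (n + 1) ⊕ Fin (n + 1) => W.H X) W.K :=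
  (TensorProduct.lift B).compMultilinearMap ((mpr W X n).domCoprod (mpr W X n))

theorem nst_apply (B : W.H (pw X n) →ₗ[W.K] W.H (pw X n) →ₗ[W.K] W.K)
    (v : Fin (n + 1) ⊕ Fin (n + 1) → W.H X) :
    nst W X n B v = B (mpr W X n fun i => v (Sum.inl i)) (mpr W X n fun i => v (Sum.inr i)) := rfl

theorem sum_nst (B : W.H (pw X n) →ₗ[W.K] W.H (pw X n) →ₗ[W.K] W.K)
    (Z : Module.End W.K (W.H X)) (v : Fin (n + 1) ⊕ Fin (n + 1) → W.H X) :
    ∑ i, nst W X n B (Function.update v i (Z (v i))) =
      B (dpw W X n Z (mpr W X n fun i => v (Sum.inl i))) (mpr W X n fun i => v (Sum.inr i)) +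
      B (mpr W X n fun i => v (Sum.inl i)) (dpw W X n Z (mpr W X n fun i => v (Sum.inr i))) := by
  rw [Fintype.sum_sum_type, dpw_mpr, dpw_mpr, map_sum, map_sum, LinearMap.sum_apply]
  congr 1
  · refine Finset.sum_congr rfl fun i _ => ?_
    rw [nst_apply]
    congr 1
    · congr 2
      funext j
      by_cases hj : j = i
      · subst hj
        rw [Function.update_self, Function.update_self]
      · rw [Function.update_of_ne hj, Function.update_of_ne fun h => hj (Sum.inl_injective h)]
  · refine Finset.sum_congr rfl fun i _ => ?_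
    rw [nst_apply]
    congr 1
    · congr 1
      funext j
      by_cases hj : j = i
      · subst hj
        rw [Function.update_self, Function.update_self]
      · rw [Function.update_of_ne hj, Function.update_of_ne fun h => hj (Sum.inr_injective h)]

theorem kills_nst {B : W.H (pw X n) →ₗ[W.K] W.H (pw X n) →ₗ[W.K] W.K}
    {Z : Module.End W.K (W.H X)} : Kills Z (nst W X n B) ↔ Kills (dpw W X n Z) (two B) := by
  rw [kills_two]
  constructor
  · intro h
    -- two bilinear forms
    have h1 : B.comp (dpw W X n Z) + B.compl₂ (dpw W X n Z) = 0 := by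
      refine mpr_ext fun v => ?_
      refine mpr_ext fun w => ?_
      have h2 := h (Sum.elim v w)
      rw [sum_nst] at h2
      exact h2
    intro a b
    exact LinearMap.congr_fun (LinearMap.congr_fun h1 a) b
  · intro h v
    rw [sum_nst]
    exact h _ _

end Pool.Agent.Q55.Pg
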