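import Pool.Agent.Q55.Pg.Main

/-!
# The zero-one law: the final form
-/

open CategoryTheory AlgebraicGeometry TensorProduct

universe u

set_option linter.unusedSectionVars false

namespace Pool.Agent.Q55.Pg

open Module Pool.Agent.H204R3.SP Pool.Agent.W516.DR
open Pool.Agent.H914 Pool.Agent.H914.VarClass Pool.Agent.H914.VarClass.Obj
  Pool.Agent.H914.WeilCohomology
open Pool.Agent.Y133.Half Pool.Agent.Y121.AH Pool.Agent.Q50.FP Pool.Agent.W516.KC
open Pool.Agent.Q50.DR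
open Pool.Agent.Q50.MTC (HodgeDecomposition)
open Pool.Agent.Y121.AHS (toC)

/-- The arithmetic of the zero-one law. -/
theorem arith {p q : ℕ → ℕ} {A t m : ℕ} (htm : t ≤ m) (hp : ∀ n, p n ≤ A * (n + 1) ^ t)
    (hq : ∀ n, (n + 1) ^ m ≤ m ^ m * q n) (n : ℕ) :
    p n * (n + 1) ^ (m - t) ≤ A * m ^ m * q n := by
  calc p n * (n + 1) ^ (m - t) ≤ A * (n + 1) ^ t * (n + 1) ^ (m - t) :=
        Nat.mul_le_mul_right _ (hp n)
    _ = A * (n + 1) ^ m := by rw [mul_assoc, ← pow_add, Nat.add_sub_cancel' htm]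
    _ ≤ A * (m ^ m * q n) := Nat.mul_le_mul_left _ (hq n)
    _ = A * m ^ m * q n := by rw [mul_assoc]

theorem arith_pos {p q : ℕ → ℕ} {A t m : ℕ} (h : ∀ n, p n * (n + 1) ^ (m - t) ≤ A * q n)
    (hq : ∀ n, (n + 1) ^ m ≤ m ^ m * q n) (htm : t ≤ m) {ε : ℝ} (hε : 0 < ε)
    (hf : ∃ᶠ n in Filter.atTop, ε * (q n : ℝ) ≤ p n) : t = m := by
  by_contra hne
  have hlt : 1 ≤ m - t := by omega
  obtain ⟨N, hN⟩ := exists_nat_gt ((A : ℝ) / ε)
  obtain ⟨n, hn, hpn⟩ := (Filter.frequently_atTop.1 hf) N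
  have hq0 : 0 < q n := by
    rcases Nat.eq_zero_or_pos (q n) with h0 | h0
    · have h1 := hq n
      rw [h0, mul_zero] at h1
      exact absurd h1 (not_le.2 (pow_pos (Nat.succ_pos n) m))
    · exact h0
  have h1 : p n * (n + 1) ≤ A * q n :=
    le_trans (Nat.mul_le_mul_left _ (le_self_pow₀ (Nat.le_add_left 1 n) (by omega))) (h n)
  have h2 : (p n : ℝ) * (n + 1) ≤ A * q n := by exact_mod_cast h1
  have hq1 : (0 : ℝ) < q n := by exact_mod_cast hq0
  have h3 : ε * (q n : ℝ) * (n + 1) ≤ A * q n :=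
    le_trans (mul_le_mul_of_nonneg_right hpn (by positivity)) h2
  have h4 : ε * ((n : ℝ) + 1) ≤ A := by
    have h5 : ε * ((n : ℝ) + 1) * q n ≤ A * q n := by
      calc ε * ((n : ℝ) + 1) * q n = ε * (q n : ℝ) * (n + 1) := by ring
        _ ≤ A * q n := h3
    exact le_of_mul_le_mul_right h5 hq1
  have h5 : (A : ℝ) < ε * N := by
    rw [div_lt_iff₀ hε] at hN
    linarith
  have h6 : (N : ℝ) ≤ n := by exact_mod_cast hn
  nlinarith

variable {k : Type u} [Field k] {𝒱 : VarClass k} {ops : CycleOps 𝒱}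
  {W D : WeilCohomology.{u, 0} ops} [Algebra W.K ℂ] [Algebra D.K ℂ]

/-- **The main theorem.** -/
theorem main (T : HodgeDecomposition W) (C : Pool.Agent.Y121.AHS.Comparison W D ℂ)
    (hC : C.s = RingEquiv.refl ℂ) [IsAlgClosed D.K] (X : 𝒱.Obj) (hX : ∃ x : W.H X, x ≠ 0)
    (hH : ∀ n j c, Pool.Agent.Q50.MTC.IsHodge T (pw X n) j c → IsDRB C (pw X n) j c) :
    ∃ t : ℕ, trdegOf D.K (periods C X) = t ∧ t ≤ dimEnd (InMT T X) ∧
      (∀ n, dimSpan D.K (periods C (pw X n)) ≤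
        dimEnd (CommHodge (W.gr (pw X n)) (T.h (pw X n)))) ∧
      (t = dimEnd (InMT T X) → ∀ n, dimSpan D.K (periods C (pw X n)) =
        dimEnd (CommHodge (W.gr (pw X n)) (T.h (pw X n)))) ∧
      (∃ A : ℕ, ∀ n, dimSpan D.K (periods C (pw X n)) * (n + 1) ^ (dimEnd (InMT T X) - t) ≤
        A * dimEnd (CommHodge (W.gr (pw X n)) (T.h (pw X n)))) ∧
      ∀ ε : ℝ, 0 < ε → (∃ᶠ n in Filter.atTop,
        ε * (dimEnd (CommHodge (W.gr (pw X n)) (T.h (pw X n))) : ℝ) ≤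
          dimSpan D.K (periods C (pw X n))) → t = dimEnd (InMT T X) := by
  have hs : ∀ z : ℂ, (show ℂ from (toC C).s z) = z := by
    intro z
    change C.s z = z
    rw [hC]
    rfl
  have hper : ∀ Y, periods C Y = Set.range (pd (CL (toC C) hs Y)) := by
    intro Y
    rw [periods_eq]
    rfl
  have hdim : ∀ Y, dimSpan D.K (periods C Y) = finrank D.K (pspace (CL (toC C) hs Y)) := by
    intro Y
    rw [hper]
    rfl
  have hrat := T.rat
  have hH' : ∀ (n j : ℕ) c, Pool.Agent.Q50.MTC.IsHodge T (pw X n) j c →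
      Drb (toC C) (pw X n) j c := fun n j c h => drb_of_isDRB (hH n j c h)
  have : Nontrivial (W.H X) := by
    obtain ⟨x, hx⟩ := hX
    exact nontrivial_of_ne x 0 hx
  obtain ⟨t, ht⟩ := exists_trdeg (C := toC C) hrat hs hH'
  obtain ⟨A, hA⟩ := pspace_growth (hs := hs) hrat ht
  have htm : t ≤ finrank W.K (mts T X) := trdeg_le_mts hrat hs hH' ht
  have hq : ∀ n, (n + 1) ^ finrank W.K (mts T X) ≤
      finrank W.K (mts T X) ^ finrank W.K (mts T X) * finrank W.K (cmt T (pw X n)) :=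
    fun n => cmt_lower n
  simp only [dimEnd_mts, dimEnd_cmt, hdim]
  refine ⟨t, ?_, htm, fun n => cmt_ge hrat hs hH' n, fun h n => ?_,
    ⟨_, arith htm hA hq⟩, fun ε hε hf => arith_pos (arith htm hA hq) hq htm hε hf⟩
  · rw [hper]
    exact ht
  · refine le_antisymm (cmt_ge hrat hs hH' n) (cmt_le hrat hs (mts_dspan hrat hs hH' ?_) n)
    rw [ht, h]

end Pool.Agent.Q55.Pg
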