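import Mathlib

/-!
# The number of linearly independent products of elements of a field
-/

set_option linter.unusedSectionVars false

namespace Pool.Agent.Q55.Pg

open Module

section alg

variable {F L : Type*} [Field F] [Field L] [Algebra F L] {t : ℕ} (y : Fin t → L)

/-- The monomials of partial degrees at most `d`. -/
def mon (d : ℕ) : Set L := Set.range fun e : Fin t → Fin (d + 1) => ∏ i, y i ^ (e i : ℕ)

/-- Their span. -/
def rd (F : Type*) {L : Type*} [Field F] [Field L] [Algebra F L] {t : ℕ} (y : Fin t → L)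
    (d : ℕ) : Submodule F L := Submodule.span F (mon y d)

theorem mem_mon {d : ℕ} (e : Fin t → ℕ) (he : ∀ i, e i ≤ d) : ∏ i, y i ^ e i ∈ mon y d :=
  ⟨fun i => ⟨e i, Nat.lt_succ_of_le (he i)⟩, rfl⟩

theorem rd_mono {d d' : ℕ} (h : d ≤ d') : rd F y d ≤ rd F y d' := by
  refine Submodule.span_mono ?_
  rintro _ ⟨e, rfl⟩
  exact mem_mon y (fun i => e i) fun i => (Nat.lt_succ_iff.1 (e i).2).trans h

theorem rd_mul (d d' : ℕ) : rd F y d * rd F y d' ≤ rd F y (d + d') := by
  rw [rd, rd, Submodule.span_mul_span, Submodule.span_le]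
  rintro _ ⟨_, ⟨e, rfl⟩, _, ⟨e', rfl⟩, rfl⟩
  refine Submodule.subset_span ?_
  change (∏ i, y i ^ (e i : ℕ)) * (∏ i, y i ^ (e' i : ℕ)) ∈ _
  rw [← Finset.prod_mul_distrib]
  simp only [← pow_add]
  refine mem_mon y (fun i => (e i : ℕ) + e' i) fun i => ?_
  exact Nat.add_le_add (Nat.lt_succ_iff.1 (e i).2) (Nat.lt_succ_iff.1 (e' i).2)

theorem one_mem_rd (d : ℕ) : (1 : L) ∈ rd F y d := by
  refine Submodule.subset_span ?_
  have h := mem_mon y (d := d) (fun _ => 0) fun _ => Nat.zero_le _
  simpa using h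

theorem mem_rd {x : L} (hx : x ∈ Algebra.adjoin F (Set.range y)) : ∃ d, x ∈ rd F y d := by
  induction hx using Algebra.adjoin_induction with
  | mem x hx =>
    obtain ⟨i, rfl⟩ := hx
    refine ⟨1, Submodule.subset_span ?_⟩
    classical
    have h := mem_mon y (d := 1) (fun j => if j = i then 1 else 0) fun j => by
      split_ifs <;> omega
    have h2 : (∏ j, y j ^ (if j = i then 1 else 0)) = y i := by
      rw [Finset.prod_eq_single i]
      · rw [if_pos rfl, pow_one]
      · intro j _ hj
        rw [if_neg hj, pow_zero]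
      · intro h
        exact absurd (Finset.mem_univ i) h
    rwa [h2] at h
  | algebraMap r =>
    refine ⟨0, ?_⟩
    rw [Algebra.algebraMap_eq_smul_one]
    exact Submodule.smul_mem _ _ (one_mem_rd y 0)
  | add a b _ _ ha hb =>
    obtain ⟨d, hd⟩ := ha
    obtain ⟨d', hd'⟩ := hb
    exact ⟨max d d', Submodule.add_mem _ (rd_mono y (le_max_left _ _) hd)
      (rd_mono y (le_max_right _ _) hd')⟩
  | mul a b _ _ ha hb =>
    obtain ⟨d, hd⟩ := ha
    obtain ⟨d', hd'⟩ := hb
    exact ⟨d + d', rd_mul y d d' (Submodule.mul_mem_mul hd hd')⟩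

/-- The algebra generated by the elements. -/
def ra (F : Type*) {L : Type*} [Field F] [Field L] [Algebra F L] {t : ℕ} (y : Fin t → L) :
    Submodule F L := Subalgebra.toSubmodule (Algebra.adjoin F (Set.range y))

theorem mem_ra_mul {V : Submodule F L} {x : L} (hx : x ∈ ra F y * V) :
    ∃ d, x ∈ rd F y d * V := by
  induction hx using Submodule.mul_induction_on' with
  | mem_mul_mem r hr v hv =>
    obtain ⟨d, hd⟩ := mem_rd y hr
    exact ⟨d, Submodule.mul_mem_mul hd hv⟩
  | add a _ b _ ha hb =>
    obtain ⟨d, hd⟩ := ha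
    obtain ⟨d', hd'⟩ := hb
    exact ⟨max d d', Submodule.add_mem _
      (mul_le_mul_left (rd_mono y (le_max_left _ _)) _ hd)
      (mul_le_mul_left (rd_mono y (le_max_right _ _)) _ hd')⟩

theorem ra_mul_mem {V : Submodule F L} {r x : L} (hr : r ∈ ra F y) (hx : x ∈ ra F y * V) :
    r * x ∈ ra F y * V := by
  have h1 : ra F y * ra F y ≤ ra F y := by
    rw [Submodule.mul_le]
    intro a ha b hb
    exact (Algebra.adjoin F (Set.range y)).mul_mem ha hb
  have h2 : r * x ∈ ra F y * (ra F y * V) := Submodule.mul_mem_mul hr hx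
  rw [← mul_assoc] at h2
  exact mul_le_mul_left h1 _ h2

end alg

section grow

variable {F L κ : Type*} [Field F] [Field L] [Algebra F L] {t : ℕ} (y : Fin t → L)
  [Fintype κ] [DecidableEq κ] (q : κ → L)

/-- Products of powers. -/
def pp (q : κ → L) (j : κ → ℕ) : L := ∏ a, q a ^ j a

theorem pp_split (a : κ) (j : κ → ℕ) (m : ℕ) :
    q a ^ m * ∏ b ∈ Finset.univ.erase a, q b ^ j b = pp q (Function.update j a m) := by
  rw [pp, ← Finset.mul_prod_erase Finset.univ _ (Finset.mem_univ a), Function.update_self]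
  congr 1
  refine Finset.prod_congr rfl fun b hb => ?_
  rw [Function.update_of_ne (Finset.ne_of_mem_erase hb)]

/-- Elements which are algebraic over the algebra generated by `y`. -/
theorem exists_step (hq : ∀ a, IsAlgebraic (Algebra.adjoin F (Set.range y)) (q a)) :
    ∃ (D : κ → ℕ) (Q : L), Q ≠ 0 ∧ (∀ a, 0 < D a) ∧ ∀ a, ∀ j : κ → ℕ, (∀ b, j b < D b) →
      Q * q a * pp q j ∈ ra F y *
        Submodule.span F {x | ∃ j : κ → ℕ, (∀ b, j b < D b) ∧ pp q j = x} := by
  choose P hP0 hP using hq
  set D : κ → ℕ := fun a => (P a).natDegree with hD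
  set l : κ → L := fun a => ((P a).leadingCoeff : L) with hl
  have hl0 : ∀ a, l a ≠ 0 := by
    intro a h
    have h1 : (P a).leadingCoeff = 0 := Subtype.ext h
    exact hP0 a (Polynomial.leadingCoeff_eq_zero.1 h1)
  have hl1 : ∀ a, l a ∈ ra F y := fun a => (P a).leadingCoeff.2
  have hrel : ∀ a, l a * q a ^ D a = -∑ i ∈ Finset.range (D a), ((P a).coeff i : L) * q a ^ i := by
    intro a
    have h1 := hP a
    rw [Polynomial.aeval_eq_sum_range, Finset.sum_range_succ] at h1
    have h2 : ∀ i, (P a).coeff i • q a ^ i = ((P a).coeff i : L) * q a ^ i := fun i => rfl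
    simp only [h2] at h1
    exact eq_neg_of_add_eq_zero_right h1
  have hD0 : ∀ a, 0 < D a := by
    intro a
    rcases Nat.eq_zero_or_pos (D a) with h | h
    · exfalso
      have h1 := hrel a
      rw [h, pow_zero, mul_one, Finset.range_zero, Finset.sum_empty, neg_zero] at h1
      exact hl0 a h1
    · exact h
  set V := Submodule.span F {x | ∃ j : κ → ℕ, (∀ b, j b < D b) ∧ pp q j = x} with hV
  have hVm : ∀ j : κ → ℕ, (∀ b, j b < D b) → pp q j ∈ V := fun j hj =>
    Submodule.subset_span ⟨j, hj, rfl⟩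
  refine ⟨D, ∏ a, l a, Finset.prod_ne_zero_iff.2 fun a _ => hl0 a, hD0, fun a j hj => ?_⟩
  -- one factor
  have key : l a * (q a * pp q j) ∈ ra F y * V := by
    have h1 : pp q j = q a ^ j a * ∏ b ∈ Finset.univ.erase a, q b ^ j b := by
      rw [pp_split, Function.update_eq_self]
    have h2 : ∀ (c : L), c ∈ ra F y → ∀ m < D a,
        c * (q a ^ m * ∏ b ∈ Finset.univ.erase a, q b ^ j b) ∈ ra F y * V := by
      intro c hc m hm
      rw [pp_split]
      refine Submodule.mul_mem_mul hc (hVm _ fun b => ?_)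
      by_cases hb : b = a
      · subst hb
        rwa [Function.update_self]
      · rw [Function.update_of_ne hb]
        exact hj b
    rw [h1, ← mul_assoc (q a), ← pow_succ']
    rcases Nat.lt_or_ge (j a + 1) (D a) with h | h
    · exact h2 _ (hl1 a) _ h
    · have h3 : j a + 1 = D a := le_antisymm (hj a) h
      rw [h3, ← mul_assoc, hrel, neg_mul, Finset.sum_mul]
      refine Submodule.neg_mem _ (Submodule.sum_mem _ fun i hi => ?_)
      rw [mul_assoc]
      exact h2 _ ((P a).coeff i).2 i (Finset.mem_range.1 hi)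
  have h4 : (∏ b, l b) * q a * pp q j = (∏ b ∈ Finset.univ.erase a, l b) *
      (l a * (q a * pp q j)) := by
    rw [← Finset.mul_prod_erase Finset.univ _ (Finset.mem_univ a)]
    ring
  rw [h4]
  exact ra_mul_mem y ((Algebra.adjoin F (Set.range y)).prod_mem fun b _ => hl1 b) key

/-- The products of `n` elements. -/
def wordp (q : κ → L) (n : ℕ) : Set L := Set.range fun w : Fin n → κ => ∏ i, q (w i)

/-- **The growth of the number of linearly independent products.** -/
theorem growth_le (hq : ∀ a, IsAlgebraic (Algebra.adjoin F (Set.range y)) (q a)) :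
    ∃ C : ℕ, ∀ n, finrank F (Submodule.span F (wordp q n)) ≤ C * (n + 1) ^ t := by
  obtain ⟨D, Q, hQ, hD, hstep⟩ := exists_step y q hq
  set B : Set L := Set.range fun j : ∀ a, Fin (D a) => pp q fun a => j a with hB
  have hBe : {x | ∃ j : κ → ℕ, (∀ b, j b < D b) ∧ pp q j = x} = B := by
    ext x
    constructor
    · rintro ⟨j, hj, rfl⟩
      exact ⟨fun a => ⟨j a, hj a⟩, rfl⟩
    · rintro ⟨j, rfl⟩
      exact ⟨fun a => j a, fun b => (j b).2, rfl⟩
  rw [hBe] at hstep
  set V := Submodule.span F B with hV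
  -- a common exponent
  have h1 : ∀ (a : κ) (j : ∀ a, Fin (D a)), ∃ e, Q * q a * pp q (fun a => j a) ∈ rd F y e * V :=
    fun a j => mem_ra_mul y (hstep a _ fun b => (j b).2)
  choose e he using h1
  set E := Finset.univ.sup fun p : κ × (∀ a, Fin (D a)) => e p.1 p.2 with hE
  have h2 : ∀ a, ∀ v ∈ V, Q * q a * v ∈ rd F y E * V := by
    intro a v hv
    induction hv using Submodule.span_induction with
    | mem x hx =>
      obtain ⟨j, rfl⟩ := hx
      exact mul_le_mul_left (rd_mono y (Finset.le_sup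
        (f := fun p : κ × (∀ a, Fin (D a)) => e p.1 p.2) (Finset.mem_univ (a, j)))) _ (he a j)
    | zero => rw [mul_zero]; exact Submodule.zero_mem _
    | add x z _ _ hx hz => rw [mul_add]; exact Submodule.add_mem _ hx hz
    | smul r x _ hx => rw [mul_smul_comm]; exact Submodule.smul_mem _ _ hx
  have h3 : ∀ (a : κ) (d : ℕ) (x : L), x ∈ rd F y d * V → Q * q a * x ∈ rd F y (d + E) * V := by
    intro a d x hx
    induction hx using Submodule.mul_induction_on' with
    | mem_mul_mem r hr v hv =>
      have h4 : Q * q a * (r * v) = r * (Q * q a * v) := by ring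
      rw [h4]
      have h5 : r * (Q * q a * v) ∈ rd F y d * (rd F y E * V) :=
        Submodule.mul_mem_mul hr (h2 a v hv)
      rw [← mul_assoc] at h5
      exact mul_le_mul_left (rd_mul y d E) _ h5
    | add x _ z _ hx hz => rw [mul_add]; exact Submodule.add_mem _ hx hz
  have h0 : (1 : L) ∈ V := by
    refine Submodule.subset_span ⟨fun a => ⟨0, hD a⟩, ?_⟩
    change pp q (fun a => 0) = 1
    rw [pp]
    exact Finset.prod_eq_one fun a _ => pow_zero _
  have h4 : ∀ (n : ℕ) (w : Fin n → κ), Q ^ n * ∏ i, q (w i) ∈ rd F y (n * E) * V := by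
    intro n
    induction n with
    | zero =>
      intro w
      rw [pow_zero, Finset.univ_eq_empty, Finset.prod_empty]
      exact Submodule.mul_mem_mul (one_mem_rd y _) h0
    | succ n ih =>
      intro w
      have h5 := h3 (w 0) _ _ (ih fun i => w i.succ)
      rw [Fin.prod_univ_succ]
      have h6 : Q ^ (n + 1) * (q (w 0) * ∏ i : Fin n, q (w i.succ)) =
          Q * q (w 0) * (Q ^ n * ∏ i : Fin n, q (w i.succ)) := by ring
      rw [h6, Nat.succ_mul]
      exact h5
  -- dimensions
  have hmonf : ∀ d, (mon y d).Finite := fun d => Set.finite_range _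
  have hBf : B.Finite := Set.finite_range _
  have h5 : ∀ d, finrank F (rd F y d * V : Submodule F L) ≤ (d + 1) ^ t * ∏ a, D a := by
    intro d
    have h6 : (rd F y d * V : Submodule F L) = Submodule.span F (Set.range
        fun p : (Fin t → Fin (d + 1)) × (∀ a, Fin (D a)) =>
          (∏ i, y i ^ (p.1 i : ℕ)) * pp q fun a => p.2 a) := by
      rw [rd, hV, Submodule.span_mul_span]
      congr 1
      ext x
      constructor
      · rintro ⟨_, ⟨e, rfl⟩, _, ⟨j, rfl⟩, rfl⟩
        exact ⟨(e, j), rfl⟩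
      · rintro ⟨⟨e, j⟩, rfl⟩
        exact ⟨_, ⟨e, rfl⟩, _, ⟨j, rfl⟩, rfl⟩
    rw [h6]
    refine (finrank_range_le_card _).trans ?_
    rw [Fintype.card_prod, Fintype.card_pi, Fintype.card_pi]
    simp
  have hfd : ∀ d, FiniteDimensional F (rd F y d * V : Submodule F L) := by
    intro d
    rw [rd, hV, Submodule.span_mul_span]
    exact FiniteDimensional.span_of_finite F ((hmonf d).mul hBf)
  refine ⟨(E + 1) ^ t * ∏ a, D a, fun n => ?_⟩
  -- multiplication by `Q ^ n`
  have h7 : (Submodule.span F (wordp q n)).map (LinearMap.mulLeft F (Q ^ n)) ≤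
      rd F y (n * E) * V := by
    rw [Submodule.map_span, Submodule.span_le]
    rintro _ ⟨_, ⟨w, rfl⟩, rfl⟩
    exact h4 n w
  have h8 : Function.Injective (LinearMap.mulLeft F (Q ^ n)) := by
    intro a b hab
    exact mul_left_cancel₀ (pow_ne_zero n hQ) hab
  have h9 := (Submodule.equivMapOfInjective _ h8 (Submodule.span F (wordp q n))).finrank_eq
  rw [h9]
  have := hfd (n * E)
  refine (Submodule.finrank_mono h7).trans ((h5 _).trans ?_)
  have h10 : n * E + 1 ≤ (E + 1) * (n + 1) := by ring_nf; omega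
  calc (n * E + 1) ^ t * ∏ a, D a ≤ ((E + 1) * (n + 1)) ^ t * ∏ a, D a :=
        Nat.mul_le_mul_right _ (Nat.pow_le_pow_left h10 t)
    _ = _ := by rw [mul_pow]; ring

end grow

section trd

variable {F L κ : Type} [Field F] [Field L] [Algebra F L] [Fintype κ]

/-- **The growth is bounded by the transcendence degree.** -/
theorem growth_trdeg (p : κ → L) {t : ℕ}
    (ht : Algebra.trdeg F (IntermediateField.adjoin F (Set.range p)) = t) :
    ∃ C : ℕ, ∀ n, finrank F (Submodule.span F (wordp p n)) ≤ C * (n + 1) ^ t := by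
  classical
  set E := IntermediateField.adjoin F (Set.range p) with hE
  let q : κ → E := fun a => ⟨p a, IntermediateField.subset_adjoin F _ ⟨a, rfl⟩⟩
  have halg : Algebra.IsAlgebraic (Algebra.adjoin F (Set.range q)) E := by
    have hq : Algebra.adjoin F (Set.range p) =
        (Algebra.adjoin F (Set.range q)).map E.val := by
      rw [AlgHom.map_adjoin, ← Set.range_comp]
      rfl
    refine ⟨fun z => ?_⟩
    obtain ⟨r, hr, s, hs, hz⟩ := IntermediateField.mem_adjoin_iff_div.1 z.2
    rw [hq] at hr hs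
    obtain ⟨r, hr, rfl⟩ := hr
    obtain ⟨s, hs, rfl⟩ := hs
    have h1 : z = r / s := Subtype.ext hz
    rw [h1, div_eq_mul_inv]
    exact (isAlgebraic_algebraMap (⟨r, hr⟩ : Algebra.adjoin F (Set.range q))).mul
      (isAlgebraic_algebraMap (⟨s, hs⟩ : Algebra.adjoin F (Set.range q))).inv
  obtain ⟨s, hs, hb⟩ := exists_isTranscendenceBasis_subset (R := F) (Set.range q)
  have hcard : Cardinal.mk s = t := by rw [hb.cardinalMk_eq_trdeg, ht]
  have hfin : Finite s := Cardinal.lt_aleph0_iff_finite.1 (by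
    rw [hcard]; exact Cardinal.natCast_lt_aleph0)
  have : Fintype s := Fintype.ofFinite s
  have hc : Fintype.card s = t := by
    rw [Cardinal.mk_fintype] at hcard
    exact_mod_cast hcard
  let ε : Fin t ≃ s := (Fintype.equivFinOfCardEq hc).symm
  let y : Fin t → E := fun i => (ε i : E)
  have hy : Set.range y = s := by
    have h1 : y = Subtype.val ∘ ε := rfl
    rw [h1, Set.range_comp, ε.surjective.range_eq, Set.image_univ, Subtype.range_coe]
  have h1 : Algebra.IsAlgebraic (Algebra.adjoin F (Set.range (Subtype.val : s → E))) E :=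
    hb.isAlgebraic
  rw [Subtype.range_coe, ← hy] at h1
  obtain ⟨C, hC⟩ := growth_le y q fun a => h1.isAlgebraic (q a)
  refine ⟨C, fun n => ?_⟩
  have h2 : Submodule.span F (wordp p n) =
      (Submodule.span F (wordp q n)).map E.val.toLinearMap := by
    rw [Submodule.map_span]
    congr 1
    ext x
    constructor
    · rintro ⟨w, rfl⟩
      refine ⟨_, ⟨w, rfl⟩, ?_⟩
      change E.val (∏ i, q (w i)) = _
      rw [map_prod]
      rfl
    · rintro ⟨_, ⟨w, rfl⟩, rfl⟩
      refine ⟨w, ?_⟩
      change _ = E.val (∏ i, q (w i))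
      rw [map_prod]
      rfl
  rw [h2]
  have : FiniteDimensional F (Submodule.span F (wordp q n)) :=
    FiniteDimensional.span_of_finite F (Set.finite_range _)
  exact (Submodule.finrank_map_le _ _).trans (hC n)

end trd

end Pool.Agent.Q55.Pg
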