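import Pool.Agent.Q55.Pg.Mts

/-!
# The lower bound for the dimension of the commutant
-/

open CategoryTheory AlgebraicGeometry TensorProduct

universe u

set_option linter.unusedSectionVars false

namespace Pool.Agent.Q55.Pg

open Module
open Pool.Agent.H914 Pool.Agent.H914.VarClass Pool.Agent.H914.VarClass.Obj
  Pool.Agent.H914.WeilCohomology
open Pool.Agent.Y133.Half Pool.Agent.Y121.AH Pool.Agent.Q50.FP
open Pool.Agent.Q50.DR
open Pool.Agent.Q50.MTC (HodgeDecomposition)

variable {k : Type u} [Field k] {𝒱 : VarClass k} {ops : CycleOps 𝒱}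
  {W : WeilCohomology.{u, 0} ops} {X P Q : 𝒱.Obj} {n : ℕ}

/-- The product of two linear forms on endomorphisms. -/
noncomputable def box (F : Module.End W.K (W.H P) →ₗ[W.K] W.K)
    (G : Module.End W.K (W.H Q) →ₗ[W.K] W.K) : Module.End W.K (W.H (P.prod Q)) →ₗ[W.K] W.K :=
  (TensorProduct.lid W.K W.K).toLinearMap ∘ₗ TensorProduct.map F G ∘ₗ
    (homTensorHomEquiv W.K (W.H P) (W.H Q) (W.H P) (W.H Q)).symm.toLinearMap ∘ₗ
      (kappa W P Q).conj.symm.toLinearMap

theorem box_extOp (F : Module.End W.K (W.H P) →ₗ[W.K] W.K)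
    (G : Module.End W.K (W.H Q) →ₗ[W.K] W.K) (a : Module.End W.K (W.H P))
    (b : Module.End W.K (W.H Q)) : box F G (extOp W a b) = F a * G b := by
  have h1 : extOp W a b = (kappa W P Q).conj (homTensorHomEquiv W.K (W.H P) (W.H Q) (W.H P)
      (W.H Q) (a ⊗ₜ b)) := by
    rw [homTensorHomEquiv_apply, LinearEquiv.conj_apply, extOp, LinearMap.comp_assoc]
    rfl
  rw [h1, box, LinearMap.comp_apply, LinearMap.comp_apply, LinearMap.comp_apply,
    LinearEquiv.coe_coe, LinearEquiv.coe_coe, LinearEquiv.coe_coe, LinearEquiv.symm_apply_apply,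
    LinearEquiv.symm_apply_apply, TensorProduct.map_tmul, TensorProduct.lid_tmul, smul_eq_mul]

theorem extOp_list_left {ι : Type*} (a : ι → Module.End W.K (W.H P)) : ∀ u : List ι,
    (u.map fun i => extOp W (a i) (1 : Module.End W.K (W.H Q))).prod =
      extOp W (u.map a).prod (1 : Module.End W.K (W.H Q))
  | [] => by
    rw [List.map_nil, List.map_nil, List.prod_nil, List.prod_nil]
    exact extOp_one.symm
  | i :: u => by
    rw [List.map_cons, List.map_cons, List.prod_cons, List.prod_cons, extOp_list_left a u,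
      extOp_mul, mul_one]

theorem extOp_list_right {ι : Type*} (b : ι → Module.End W.K (W.H Q)) : ∀ u : List ι,
    (u.map fun i => extOp W (1 : Module.End W.K (W.H P)) (b i)).prod =
      extOp W (1 : Module.End W.K (W.H P)) (u.map b).prod
  | [] => by
    rw [List.map_nil, List.map_nil, List.prod_nil, List.prod_nil]
    exact extOp_one.symm
  | i :: u => by
    rw [List.map_cons, List.map_cons, List.prod_cons, List.prod_cons, extOp_list_right b u,
      extOp_mul, mul_one]

theorem box_word {ι : Type*} (F : Module.End W.K (W.H P) →ₗ[W.K] W.K)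
    (G : Module.End W.K (W.H Q) →ₗ[W.K] W.K) (a : ι → Module.End W.K (W.H P))
    (b : ι → Module.End W.K (W.H Q)) (w : List ι) :
    box F G ((w.map fun i => extOp W (a i) (1 : Module.End W.K (W.H Q)) +
      extOp W (1 : Module.End W.K (W.H P)) (b i)).prod) =
        ((spl w).map fun p => F (p.1.map a).prod * G (p.2.map b).prod).sum := by
  rw [spl_prod (fun i => extOp W (a i) (1 : Module.End W.K (W.H Q)))
    (fun i => extOp W (1 : Module.End W.K (W.H P)) (b i)) (fun i j => by
      rw [extOp_mul, extOp_mul, one_mul, mul_one, one_mul, mul_one]), map_list_sum, List.map_map]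
  congr 1
  refine List.map_congr_left fun p _ => ?_
  rw [Function.comp_apply, extOp_list_left, extOp_list_right, extOp_mul, one_mul, mul_one,
    box_extOp]

/-- **The dual forms.** -/
theorem exists_dualF {ι : Type} [DecidableEq ι] (Y : ι → Module.End W.K (W.H X))
    (ξ : ι → (Module.End W.K (W.H X) →ₗ[W.K] W.K)) (ε : Module.End W.K (W.H X) →ₗ[W.K] W.K)
    (h1 : ∀ i, ξ i 1 = 0) (h2 : ∀ i j, ξ i (Y j) = if j = i then 1 else 0) (h3 : ε 1 = 1) :
    ∀ (n : ℕ) (s : Multiset ι), Multiset.card s ≤ n + 1 →
      ∃ F : Module.End W.K (W.H (pw X n)) →ₗ[W.K] W.K,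
        Dual s fun w => F (w.map fun i => dpw W X n (Y i)).prod := by
  intro n
  induction n with
  | zero =>
    intro s hs
    rcases Nat.lt_or_ge (Multiset.card s) 1 with h | h
    · have h4 : s = 0 := Multiset.card_eq_zero.1 (by omega)
      subst h4
      refine ⟨ε, fun w hw => absurd hw (by simp), 1, one_ne_zero, fun w hw => ?_⟩
      rw [Multiset.card_zero, List.length_eq_zero_iff] at hw
      subst hw
      rw [if_pos (show ((([] : List ι)) : Multiset ι) = 0 from rfl)]
      exact h3
    · obtain ⟨i, rfl⟩ := Multiset.card_eq_one.1 (le_antisymm hs h)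
      refine ⟨ξ i, fun w hw => ?_, 1, one_ne_zero, fun w hw => ?_⟩
      · rw [Multiset.card_singleton, Nat.lt_one_iff, List.length_eq_zero_iff] at hw
        subst hw
        exact h1 i
      · rw [Multiset.card_singleton, List.length_eq_one_iff] at hw
        obtain ⟨j, rfl⟩ := hw
        have h5 : ((([j] : List ι) : Multiset ι) = {i}) ↔ j = i := by
          rw [Multiset.coe_singleton, Multiset.singleton_inj]
        have h6 : ((([j] : List ι)).map fun i => dpw W X 0 (Y i)).prod = Y j := by
          rw [List.map_singleton, List.prod_singleton]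
          rfl
        simp only [h5]
        rw [← h2 i j]
        exact congrArg (ξ i) h6
  | succ n ih =>
    intro s hs
    rcases Multiset.empty_or_exists_mem s with rfl | ⟨i, hi⟩
    · obtain ⟨F, -, c, hc, hF⟩ := ih 0 (by simp)
      refine ⟨box F ε, fun w hw => absurd hw (by simp), c, hc, fun w hw => ?_⟩
      rw [Multiset.card_zero, List.length_eq_zero_iff] at hw
      subst hw
      have h4 : F 1 = c := by
        have h5 := hF [] rfl
        rw [if_pos (show ((([] : List ι)) : Multiset ι) = 0 from rfl)] at h5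
        exact h5
      rw [if_pos (show ((([] : List ι)) : Multiset ι) = 0 from rfl)]
      have h5 : box F ε (extOp W (1 : Module.End W.K (W.H (pw X n)))
          (1 : Module.End W.K (W.H X))) = c := by
        rw [box_extOp, h4, h3, mul_one]
      rw [extOp_one] at h5
      exact h5
    · obtain ⟨s', rfl⟩ := Multiset.exists_cons_of_mem hi
      rw [Multiset.card_cons] at hs
      obtain ⟨F, hF⟩ := ih s' (by omega)
      refine ⟨box F (ξ i), ?_⟩
      have h4 := hF.step i (ψ := fun v => ξ i (v.map Y).prod) (h1 i) (fun j => by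
        change ξ i ((([j] : List ι)).map Y).prod = _
        rw [List.map_singleton, List.prod_singleton, h2])
      have h5 : (fun w : List ι => box F (ξ i) (w.map fun i => dpw W X (n + 1) (Y i)).prod) =
          fun w => ((spl w).map fun p => F (p.1.map fun i => dpw W X n (Y i)).prod *
            ξ i (p.2.map Y).prod).sum := by
        funext w
        exact box_word F (ξ i) (fun i => dpw W X n (Y i)) Y w
      have h6 : Dual (i ::ₘ s') (fun w : List ι =>
          box F (ξ i) (w.map fun i => dpw W X (n + 1) (Y i)).prod) := by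
        rw [h5]
        exact h4
      exact h6

theorem exists_family {K A : Type*} [Field K] [Ring A] [Algebra K A] (U : Submodule K A)
    [FiniteDimensional K U] (h1 : (1 : A) ∉ U) :
    ∃ Y : Fin (finrank K U) → A, (∀ i, Y i ∈ U) ∧
      LinearIndependent K (fun o : Option (Fin (finrank K U)) => o.elim 1 Y) := by
  let b := Module.finBasis K U
  have hY : LinearIndependent K fun i => (b i : A) :=
    b.linearIndependent.map' U.subtype (Submodule.ker_subtype _)
  have hspan : Submodule.span K (Set.range fun i => (b i : A)) ≤ U := by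
    rw [Submodule.span_le]
    rintro _ ⟨i, rfl⟩
    exact (b i).2
  refine ⟨fun i => b i, fun i => (b i).2, ?_⟩
  rw [linearIndependent_option]
  exact ⟨hY, fun h => h1 (hspan h)⟩

theorem lower_of {T : Submodule W.K (Module.End W.K (W.H X))} [CharZero W.K]
    (h1 : (1 : Module.End W.K (W.H X)) ∉ T) (n : ℕ)
    (B : Submodule W.K (Module.End W.K (W.H (pw X n))))
    (hB : ∀ l : List (Module.End W.K (W.H (pw X n))), (∀ a ∈ l, ∃ Z ∈ T, dpw W X n Z = a) →
      l.prod ∈ B) :
    (n + 1) ^ finrank W.K T ≤ finrank W.K T ^ finrank W.K T * finrank W.K B := by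
  classical
  obtain ⟨Y, hYT, h1⟩ := exists_family T h1
  obtain ⟨ξ, ε, hξ1, hξ, hε⟩ := exists_duals Y h1
  have h2 := linInd_of_dual (K := W.K)
    (fun w : List (Fin (finrank W.K T)) => (w.map fun i => dpw W X n (Y i)).prod)
    (N := n + 1) (exists_dualF Y ξ ε hξ1 hξ hε n)
  refine card_le_of_linInd (N := n + 1)
    (fun s : Multiset (Fin (finrank W.K T)) =>
      (s.toList.map fun i => dpw W X n (Y i)).prod) B (fun s _ => ?_) h2
  refine hB _ fun a ha => ?_
  obtain ⟨i, -, rfl⟩ := List.mem_map.1 ha
  exact ⟨Y i, hYT i, rfl⟩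

/-- **The lower bound.** -/
theorem cmt_lower [Algebra W.K ℂ] {T : HodgeDecomposition W} [Nontrivial (W.H X)] (n : ℕ) :
    (n + 1) ^ finrank W.K (mts T X) ≤
      finrank W.K (mts T X) ^ finrank W.K (mts T X) * finrank W.K (cmt T (pw X n)) := by
  have hchar : CharZero W.K := (algebraMap W.K ℂ).charZero
  refine lower_of one_notMem n (cmt T (pw X n)) fun l hl => cmt_list _ fun a ha => ?_
  obtain ⟨Z, hZ, rfl⟩ := hl a ha
  exact dpw_cmt hZ

end Pool.Agent.Q55.Pg
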