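import Pool.Agent.Q55.Pg.Rst

/-!
# The lower bound for the dimension of the space of the periods of the powers
-/

open CategoryTheory AlgebraicGeometry TensorProduct

universe u

set_option linter.unusedSectionVars false

namespace Pool.Agent.Q55.Pg

open Module Pool.Agent.W516.DR
open Pool.Agent.H914 Pool.Agent.H914.VarClass Pool.Agent.H914.VarClass.Obj
  Pool.Agent.H914.WeilCohomology
open Pool.Agent.Y133.Half Pool.Agent.Y121.AH Pool.Agent.Q50.FP
open Pool.Agent.Q50.DR
open Pool.Agent.Q50.MTC (HodgeDecomposition)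

section alg

variable {F L : Type} [Field F] [Field L] [Algebra F L]

/-- Algebraically independent elements. -/
theorem mon_lower {t : ℕ} {y : Fin t → L} (hy : AlgebraicIndependent F y) {N : ℕ}
    (U : Submodule F L) [FiniteDimensional F U]
    (hU : ∀ e : Fin t → ℕ, ∑ i, e i ≤ N → ∏ i, y i ^ e i ∈ U) :
    N ^ t ≤ t ^ t * finrank F U := by
  classical
  let ms : (Fin t → Fin (N / t + 1)) → (Fin t →₀ ℕ) := fun f =>
    Finsupp.equivFunOnFinite.symm fun i => (f i : ℕ)
  have hinj : Function.Injective ms := by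
    intro f g hfg
    funext i
    apply Fin.ext
    exact DFunLike.congr_fun hfg i
  have h1 : LinearIndependent F fun e : Fin t →₀ ℕ => MvPolynomial.aeval (R := F) y
      (MvPolynomial.monomial e 1) := by
    have h2 := (MvPolynomial.basisMonomials (Fin t) F).linearIndependent
    have h3 := h2.map' (MvPolynomial.aeval (R := F) y).toLinearMap
      (LinearMap.ker_eq_bot.2 hy)
    have h4 : (fun e : Fin t →₀ ℕ => MvPolynomial.aeval (R := F) y
        (MvPolynomial.monomial e 1)) = (MvPolynomial.aeval (R := F) y).toLinearMap ∘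
          (MvPolynomial.basisMonomials (Fin t) F) := by
      funext e
      change _ = MvPolynomial.aeval y (MvPolynomial.basisMonomials (Fin t) F e)
      rw [MvPolynomial.coe_basisMonomials]
    rw [h4]
    exact h3
  have h2 := h1.comp _ hinj
  have h4 : ∀ f, MvPolynomial.aeval (R := F) y (MvPolynomial.monomial (ms f) (1 : F)) =
      ∏ i, y i ^ (f i : ℕ) := by
    intro f
    rw [MvPolynomial.aeval_monomial, map_one, one_mul, Finsupp.prod_fintype]
    · rfl
    · intro i
      exact pow_zero _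
  have h5 : ∀ f : Fin t → Fin (N / t + 1), ∏ i, y i ^ (f i : ℕ) ∈ U := by
    intro f
    refine hU _ ?_
    refine (Finset.sum_le_sum fun i _ => Nat.lt_succ_iff.1 (f i).2).trans ?_
    rw [Finset.sum_const, Finset.card_univ, Fintype.card_fin, smul_eq_mul]
    exact Nat.mul_div_le N t
  have h3 : LinearIndependent F fun f : Fin t → Fin (N / t + 1) =>
      (⟨∏ i, y i ^ (f i : ℕ), h5 f⟩ : U) := by
    refine LinearIndependent.of_comp U.subtype ?_
    have h6 : (U.subtype ∘ fun f : Fin t → Fin (N / t + 1) =>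
        (⟨∏ i, y i ^ (f i : ℕ), h5 f⟩ : U)) = (fun e : Fin t →₀ ℕ => MvPolynomial.aeval
          (R := F) y (MvPolynomial.monomial e 1)) ∘ ms := by
      funext f
      exact (h4 f).symm
    rw [h6]
    exact h2
  have h6 := h3.fintype_card_le_finrank
  rw [Fintype.card_pi, Finset.prod_const, Fintype.card_fin, Finset.card_univ,
    Fintype.card_fin] at h6
  rcases Nat.eq_zero_or_pos t with rfl | hm
  · simpa using h6
  · have h7 : N ≤ t * (N / t + 1) := by
      have := Nat.lt_mul_div_succ N hm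
      omega
    calc N ^ t ≤ (t * (N / t + 1)) ^ t := Nat.pow_le_pow_left h7 t
      _ = t ^ t * (N / t + 1) ^ t := mul_pow _ _ _
      _ ≤ _ := Nat.mul_le_mul_left _ h6

/-- Products of at most `N` elements of a family which contains `1`. -/
theorem prod_mem_words {κ : Type} {t N : ℕ} (q : κ → L) {o : κ} (ho : q o = 1) (s : Fin t → κ) :
    ∀ e : Fin t → ℕ, ∑ i, e i ≤ N → ∏ i, q (s i) ^ e i ∈ wordp q N := by
  -- words as lists
  have hlist : ∀ (l : List κ), l.length ≤ N → (l.map q).prod ∈ wordp q N := by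
    intro l hl
    refine ⟨fun i => if h : (i : ℕ) < l.length then l.get ⟨i, h⟩ else o, ?_⟩
    have h1 : ∏ i : Fin N, q (if h : (i : ℕ) < l.length then l.get ⟨i, h⟩ else o) =
        ∏ i ∈ Finset.range N, (if h : i < l.length then q (l.get ⟨i, h⟩) else 1) := by
      rw [Finset.prod_range]
      refine Finset.prod_congr rfl fun i _ => ?_
      split_ifs with h
      · rfl
      · exact ho
    have h2 : ∏ i ∈ Finset.range N, (if h : i < l.length then q (l.get ⟨i, h⟩) else 1) =
        ∏ i ∈ Finset.range l.length, (if h : i < l.length then q (l.get ⟨i, h⟩) else 1) := by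
      symm
      refine Finset.prod_subset (Finset.range_mono hl) fun i _ hi => ?_
      rw [dif_neg fun h => hi (Finset.mem_range.2 h)]
    have h3 : ∏ i ∈ Finset.range l.length, (if h : i < l.length then q (l.get ⟨i, h⟩) else 1) =
        (l.map q).prod := by
      rw [Finset.prod_range]
      have h4 : l.map q = List.ofFn fun i : Fin l.length => q (l.get i) := by
        conv_lhs => rw [← List.ofFn_get l, List.map_ofFn]
        rfl
      rw [h4, List.prod_ofFn]
      refine Finset.prod_congr rfl fun i _ => ?_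
      rw [dif_pos i.2]
    exact h1.trans (h2.trans h3)
  intro e he
  have h1 : ((List.ofFn fun i => List.replicate (e i) (s i)).flatten.map q).prod =
      ∏ i, q (s i) ^ e i := by
    rw [List.map_flatten, List.prod_flatten, List.map_map, List.map_ofFn, List.prod_ofFn]
    refine Finset.prod_congr rfl fun i _ => ?_
    simp
  rw [← h1]
  refine hlist _ ?_
  rw [List.length_flatten, List.map_ofFn, List.sum_ofFn]
  refine le_trans (le_of_eq ?_) he
  refine Finset.sum_congr rfl fun i _ => ?_
  simp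

/-- A transcendence basis consisting of elements of the family. -/
theorem exists_trbasis {κ : Type} (p : κ → L) {t : ℕ}
    (ht : Algebra.trdeg F (IntermediateField.adjoin F (Set.range p)) = t) :
    ∃ s : Fin t → κ, AlgebraicIndependent F fun i => p (s i) := by
  classical
  set E := IntermediateField.adjoin F (Set.range p) with hE
  let q : κ → E := fun a => ⟨p a, IntermediateField.subset_adjoin F _ ⟨a, rfl⟩⟩
  have halg : Algebra.IsAlgebraic (Algebra.adjoin F (Set.range q)) E := by
    have hq : Algebra.adjoin F (Set.range p) =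
        (Algebra.adjoin F (Set.range q)).map E.val := by
      rw [AlgHom.map_adjoin, ← Set.range_comp]
      rfl
    refine ⟨fun z => ?_⟩
    obtain ⟨r, hr, s, hs, hz⟩ := IntermediateField.mem_adjoin_iff_div.1 z.2
    rw [hq] at hr hs
    obtain ⟨r, hr, rfl⟩ := hr
    obtain ⟨s, hs, rfl⟩ := hs
    have h1 : z = r / s := Subtype.ext hz
    rw [h1, div_eq_mul_inv]
    exact (isAlgebraic_algebraMap (⟨r, hr⟩ : Algebra.adjoin F (Set.range q))).mul
      (isAlgebraic_algebraMap (⟨s, hs⟩ : Algebra.adjoin F (Set.range q))).inv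
  obtain ⟨s, hs, hb⟩ := exists_isTranscendenceBasis_subset (R := F) (Set.range q)
  have hcard : Cardinal.mk s = t := by rw [hb.cardinalMk_eq_trdeg, ht]
  have hfin : Finite s := Cardinal.lt_aleph0_iff_finite.1 (by
    rw [hcard]; exact Cardinal.natCast_lt_aleph0)
  have : Fintype s := Fintype.ofFinite s
  have hc : Fintype.card s = t := by
    rw [Cardinal.mk_fintype] at hcard
    exact_mod_cast hcard
  let ε : Fin t ≃ s := (Fintype.equivFinOfCardEq hc).symm
  choose g hg using fun x : s => hs x.2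
  refine ⟨fun i => g (ε i), ?_⟩
  have h1 : AlgebraicIndependent F fun i : Fin t => ((ε i : s) : E) :=
    hb.1.comp ε ε.injective
  have h2 := h1.map' (f := E.val) E.val.injective
  have h3 : (fun i => p (g (ε i))) = E.val ∘ fun i : Fin t => ((ε i : s) : E) := by
    funext i
    change p (g (ε i)) = ((ε i : s) : E)
    rw [← hg (ε i)]
  rw [h3]
  exact h2

end alg

variable {k : Type u} [Field k] {𝒱 : VarClass k} {ops : CycleOps 𝒱}
  {W D : WeilCohomology.{u, 0} ops} [Algebra W.K ℂ] [Algebra D.K ℂ]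
  {X Y : 𝒱.Obj} {n : ℕ}
variable {C : Comparison (baseW W ℂ) (baseW D ℂ)} (hs : ∀ z : ℂ, (show ℂ from C.s z) = z)

/-- The product of linear forms. -/
theorem exists_prodForm (f : Fin (n + 1) → (D.H X →ₗ[D.K] D.K)) :
    ∃ F : D.H (pw X n) →ₗ[D.K] D.K, ∀ v, F (mpr D X n v) = ∏ i, f i (v i) := by
  classical
  let e := Module.finBasis D.K (D.H X)
  let M : MultilinearMap D.K (fun _ : Fin (n + 1) => D.H X) D.K :=
    (MultilinearMap.mkPiAlgebra D.K (Fin (n + 1)) D.K).compLinearMap f
  have hM : ∀ v, M v = ∏ i, f i (v i) := fun v => by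
    rw [MultilinearMap.compLinearMap_apply, MultilinearMap.mkPiAlgebra_apply]
  let F : D.H (pw X n) →ₗ[D.K] D.K := (wb e n).constr D.K fun w => M fun i => e (w i)
  refine ⟨F, ?_⟩
  have h1 : F.compMultilinearMap (mpr D X n) = M := by
    refine Basis.ext_multilinear (fun _ => e) fun w => ?_
    rw [LinearMap.compMultilinearMap_apply, mpr_wb]
    exact Basis.constr_basis _ _ _ _
  intro v
  rw [← hM, ← h1]
  rfl

theorem xf_eq_sum {κ : Type} [Fintype κ] (f : D.H X →ₗ[D.K] D.K) (d : κ → D.H X)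
    (g : κ → (baseW D ℂ).K) :
    xf f (show ℂ ⊗[D.K] D.H X from ∑ j, g j • em D ℂ (d j)) =
      ∑ j, (show ℂ from g j) * algebraMap D.K ℂ (f (d j)) := by
  refine (map_sum (xf f) (fun j => (show ℂ ⊗[D.K] D.H X from g j • em D ℂ (d j)))
    Finset.univ).trans ?_
  exact Finset.sum_congr rfl fun r _ => xf_smul_em f _ _

/-- Every class is a combination of rational classes. -/
theorem exists_em_sum (z : (baseW D ℂ).H X) : ∃ g : Fin (finrank D.K (D.H X)) → (baseW D ℂ).K,
    z = ∑ j, g j • em D ℂ (Module.finBasis D.K (D.H X) j) := by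
  let d := Module.finBasis D.K (D.H X)
  have h1 := (d.baseChange ℂ).sum_repr (show ℂ ⊗[D.K] D.H X from z)
  refine ⟨fun j => (show (baseW D ℂ).K from (d.baseChange ℂ).repr
    (show ℂ ⊗[D.K] D.H X from z) j), ?_⟩
  have h2 : ∀ j, (d.baseChange ℂ).repr (show ℂ ⊗[D.K] D.H X from z) j •
      (d.baseChange ℂ) j = (d.baseChange ℂ).repr (show ℂ ⊗[D.K] D.H X from z) j •
        ((1 : ℂ) ⊗ₜ[D.K] d j) := by
    intro j
    rw [Basis.baseChange_apply]
  rw [Finset.sum_congr rfl fun j _ => h2 j] at h1
  exact h1.symm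

/-- The products of periods are periods of the powers. -/
theorem words_pspace (n : ℕ) :
    wordp (pd (CL C hs X)) (n + 1) ⊆ (pspace (CL C hs (pw X n)) : Set ℂ) := by
  classical
  rintro _ ⟨w, rfl⟩
  obtain ⟨F, hF⟩ := exists_prodForm (D := D) (X := X) (n := n) fun i => (w i).1
  choose g hg using fun i => exists_em_sum (D := D) (C.e X (em W ℂ (w i).2))
  have h1 : pd (CL C hs (pw X n)) (F, mpr W X n fun i => (w i).2) = ∏ i, pd (CL C hs X) (w i) := by
    have h2 : C.e (pw X n) (em W ℂ (mpr W X n fun i => (w i).2)) =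
        mpr (baseW D ℂ) X n (fun i => ∑ j, g i j • em D ℂ (Module.finBasis D.K (D.H X) j)) := by
      rw [← base_mpr, Pool.Agent.Q50.MTC.cmp_mpr]
      congr 1
      funext i
      exact hg i
    have h3 : pd (CL C hs (pw X n)) (F, mpr W X n fun i => (w i).2) =
        xf F (show ℂ ⊗[D.K] D.H (pw X n) from mpr (baseW D ℂ) X n (fun i =>
          ∑ j, g i j • em D ℂ (Module.finBasis D.K (D.H X) j))) :=
      congrArg (fun z : (baseW D ℂ).H (pw X n) =>
        xf F (show ℂ ⊗[D.K] D.H (pw X n) from z)) h2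
    have h4 : ∀ i, pd (CL C hs X) (w i) = ∑ j, (show ℂ from g i j) *
        algebraMap D.K ℂ ((w i).1 (Module.finBasis D.K (D.H X) j)) := by
      intro i
      rw [← xf_eq_sum]
      exact congrArg (fun z : (baseW D ℂ).H X => xf (w i).1 (show ℂ ⊗[D.K] D.H X from z)) (hg i)
    rw [h3, xf_mpr, Finset.prod_congr rfl fun i _ => h4 i, Finset.prod_univ_sum,
      Fintype.piFinset_univ]
    refine Finset.sum_congr rfl fun r _ => ?_
    rw [hF, map_prod, ← Finset.prod_mul_distrib]
  change ∏ i, pd (CL C hs X) (w i) ∈ pspace (CL C hs (pw X n))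
  rw [← h1]
  exact Submodule.subset_span ⟨_, rfl⟩

/-- The number one is a period. -/
theorem exists_period_one (hX : ∃ x : W.H X, x ≠ 0) :
    ∃ o : (D.H X →ₗ[D.K] D.K) × W.H X, pd (CL C hs X) o = 1 := by
  have h1 : (1 : D.H X) ≠ 0 := by
    intro h0
    obtain ⟨x, hx⟩ := hX
    apply hx
    refine eq_zero_of_tmul (F := W.K) (L := ℂ) (V := W.H X) (v := x) ?_
    have h2 : C.e X (em W ℂ x) = 0 := by
      have h3 : (1 : (baseW D ℂ).H X) = em D ℂ (1 : D.H X) := (em_one (W := D) (L := ℂ)).symm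
      rw [← one_mul (C.e X (em W ℂ x)), h3, h0]
      have h4 : em D ℂ (0 : D.H X) = 0 := TensorProduct.tmul_zero _ _
      rw [h4, zero_mul]
    exact (map_eq_zero_iff (C.e X) (C.e X).injective).1 h2
  obtain ⟨φ, hφ⟩ : ∃ φ : D.H X →ₗ[D.K] D.K, φ 1 ≠ 0 := by
    by_contra hcon
    push Not at hcon
    exact h1 ((Module.forall_dual_apply_eq_zero_iff D.K (1 : D.H X)).1 hcon)
  refine ⟨((φ 1)⁻¹ • φ, 1), ?_⟩
  have h2 : C.e X (em W ℂ (1 : W.H X)) = (1 : (baseW D ℂ).K) • em D ℂ (1 : D.H X) := by
    rw [one_smul, em_one, em_one, map_one]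
  have h3 : pd (CL C hs X) ((φ 1)⁻¹ • φ, (1 : W.H X)) = xf ((φ 1)⁻¹ • φ)
      (show ℂ ⊗[D.K] D.H X from (1 : (baseW D ℂ).K) • em D ℂ (1 : D.H X)) :=
    congrArg (fun z : (baseW D ℂ).H X => xf ((φ 1)⁻¹ • φ) (show ℂ ⊗[D.K] D.H X from z)) h2
  rw [h3, xf_smul_em, LinearMap.smul_apply, smul_eq_mul, inv_mul_cancel₀ hφ, map_one]
  exact one_mul _

/-- **The lower bound.** -/
theorem pspace_lower (hrat : ∀ r : W.K, ∃ q : ℚ, (q : W.K) = r) (hX : ∃ x : W.H X, x ≠ 0)
    {t : ℕ} (ht : Algebra.trdeg D.K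
      (IntermediateField.adjoin D.K (Set.range (pd (CL C hs X)))) = t) (n : ℕ) :
    (n + 1) ^ t ≤ t ^ t * finrank D.K (pspace (CL C hs (pw X n))) := by
  have hchar : CharZero D.K := (algebraMap D.K ℂ).charZero
  have hfin := finite_pspace (CL C hs (pw X n)) hrat
  obtain ⟨s, hind⟩ := exists_trbasis (F := D.K) (pd (CL C hs X)) ht
  obtain ⟨o, ho⟩ := exists_period_one hs hX
  refine mon_lower hind (N := n + 1) _ fun e he => ?_
  exact words_pspace hs n (prod_mem_words (pd (CL C hs X)) ho s e he)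

end Pool.Agent.Q55.Pg
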