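import Pool.Agent.Q55.Pg.Lwp

/-!
# The zero-one law for the number of independent periods
-/

open CategoryTheory AlgebraicGeometry TensorProduct

universe u

set_option linter.unusedSectionVars false

namespace Pool.Agent.Q55.Pg

open Module Pool.Agent.H204R3.SP Pool.Agent.W516.DR
open Pool.Agent.H914 Pool.Agent.H914.VarClass Pool.Agent.H914.VarClass.Obj
  Pool.Agent.H914.WeilCohomology
open Pool.Agent.Y133.Half Pool.Agent.Y121.AH Pool.Agent.Q50.FP Pool.Agent.W516.KC
open Pool.Agent.Q50.DR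
open Pool.Agent.Q50.MTC (HodgeDecomposition yy yy_mt hh_drv exists_complement)

variable {k : Type u} [Field k] {𝒱 : VarClass k} {ops : CycleOps 𝒱}
  {W D : WeilCohomology.{u, 0} ops} [Algebra W.K ℂ] [Algebra D.K ℂ] {T : HodgeDecomposition W}
  {X Y : 𝒱.Obj} {n : ℕ}

variable (hrat : ∀ r : W.K, ∃ q : ℚ, (q : W.K) = r) (δ : Derivation D.K ℂ ℂ)
  {C : Comparison (baseW W ℂ) (baseW D ℂ)} (hs : ∀ z : ℂ, (show ℂ from C.s z) = z)

section comp

variable (hH : ∀ (n j : ℕ) c, Pool.Agent.Q50.MTC.IsHodge T (pw X n) j c → Drb C (pw X n) j c)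

include hH in
theorem zz_mts (ν : ℂ →ₗ[W.K] W.K) : zz hrat δ C hs X ν ∈ mts T X := by
  refine ⟨0, fun n M j c _ hc => ?_⟩
  rw [mul_zero]
  exact actsBy_zero (zz_kills_drb hrat δ hs ν hc.1 (hH n j c hc))

include hH in
theorem cE_mts (ν : ℂ →ₗ[W.K] W.K) : cE ν (Dd hrat δ C hs X) ∈ mts T X := by
  have h5 : cE ν (Dd hrat δ C hs X) = zz hrat δ C hs X ν +
      lam ν (show (baseW W ℂ).K from (lc δ C / 2 : ℂ)) • dg W X := by
    rw [← cE_smul_dg, zz]
    refine LinearMap.ext fun x => ?_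
    rw [LinearMap.add_apply, cE_apply, cE_apply, cE_apply, ← cC_add, Dn, LinearMap.sub_apply,
      sub_add_cancel]
  rw [h5]
  exact Submodule.add_mem _ (zz_mts hrat δ hs hH ν) (Submodule.smul_mem _ _ inMT_dg)

include hH in
theorem dspan_le : dspan hrat C hs X ≤ Submodule.span ℂ
    ((fun A : Module.End W.K (W.H X) => A.baseChange ℂ) '' (mts T X : Set _)) := by
  unfold dspan
  rw [Submodule.span_le]
  rintro _ ⟨δ, rfl⟩
  exact mem_span_of_cmp (mts T X) _ fun ν => cE_mts hrat δ hs hH ν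

end comp

theorem trdeg_dspan : Algebra.trdeg D.K (IntermediateField.adjoin D.K (Set.range (per C X))) ≤
    finrank ℂ (dspan hrat C hs X) := by
  refine (trdeg_le (per C X) ((dspan hrat C hs X).map (vals C hs X)) fun δ => ?_).trans ?_
  · refine ⟨(show Module.End ℂ (ℂ ⊗[W.K] W.H X) from Dd hrat δ C hs X),
      Submodule.subset_span ⟨δ, rfl⟩, ?_⟩
    funext I
    exact (per_deriv hrat δ C hs I).symm
  · exact_mod_cast Submodule.finrank_map_le _ _

/-- The commutant is generated by the Hodge operators and the degree operator. -/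
theorem cmt_adjoin {b : Module.End W.K (W.H Y)} (hb : b ∈ cmt T Y) :
    b ∈ Algebra.adjoin W.K (Set.range (yy T Y) ∪ {dg W Y}) := by
  refine bicomm_induction _ (fun U hU => ?_) fun P hP => ?_
  · obtain ⟨U', h1, h2, h3⟩ := exists_complement (T := T)
      (fun ν => hU _ (Or.inl ⟨ν, rfl⟩)) (hU _ (Or.inr rfl))
    refine ⟨U', ?_, h3⟩
    rintro a (⟨ν, rfl⟩ | rfl)
    · exact h1 ν
    · exact h2
  · refine mem_cmt.1 hb P (respHodge_iff.2 ⟨?_, fun ν => hP _ (Or.inl ⟨ν, rfl⟩)⟩)
    have h1 := hP _ (Or.inr rfl)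
    rw [dn, mul_sub, sub_mul, h1, mul_smul_comm, smul_mul_assoc, mul_one, one_mul]

/-- The relations between the periods are stable under the algebra of the Hodge operators. -/
theorem rl_adj (hd : ∀ Z ∈ mts T X, Z.baseChange ℂ ∈ dspan hrat C hs X) (n : ℕ)
    {b : Module.End W.K (W.H (pw X n))}
    (hb : b ∈ Algebra.adjoin W.K (Set.range (yy T (pw X n)) ∪ {dg W (pw X n)})) :
    ∀ (ι : Type) [Fintype ι] (f : ι → (D.H (pw X n) →ₗ[D.K] D.K)) (v : ι → W.H (pw X n)),
      ∑ i, xf (f i) (CL C hs (pw X n) ((1 : ℂ) ⊗ₜ[W.K] v i)) = 0 →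
        ∑ i, xf (f i) (CL C hs (pw X n) ((1 : ℂ) ⊗ₜ[W.K] b (v i))) = 0 := by
  induction hb using Algebra.adjoin_induction with
  | mem x hx =>
    intro ι _ f v h
    rcases hx with ⟨ν, rfl⟩ | rfl
    · rw [yy_dpw]
      exact rl_stable hrat hs f v h (hd _ (inMT_of_mt (yy_mt ν)))
    · rw [← dpw_dg]
      exact rl_stable hrat hs f v h (hd _ inMT_dg)
  | algebraMap r =>
    intro ι _ f v h
    obtain ⟨q, hq⟩ := hrat r
    have h1 : ∀ i, xf (f i) (CL C hs (pw X n) ((1 : ℂ) ⊗ₜ[W.K]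
        (algebraMap W.K (Module.End W.K (W.H (pw X n))) r) (v i))) =
        (q : ℂ) * xf (f i) (CL C hs (pw X n) ((1 : ℂ) ⊗ₜ[W.K] v i)) := by
      intro i
      rw [Module.algebraMap_end_apply, ← hq, TensorProduct.tmul_smul,
        ← algebraMap_smul (A := ℂ) (q : W.K), map_ratCast, map_smul, map_smul, smul_eq_mul]
    rw [Finset.sum_congr rfl fun i _ => h1 i, ← Finset.mul_sum, h, mul_zero]
  | add x y _ _ hx hy =>
    intro ι _ f v h
    have h1 : ∀ i, xf (f i) (CL C hs (pw X n) ((1 : ℂ) ⊗ₜ[W.K] (x + y) (v i))) =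
        xf (f i) (CL C hs (pw X n) ((1 : ℂ) ⊗ₜ[W.K] x (v i))) +
          xf (f i) (CL C hs (pw X n) ((1 : ℂ) ⊗ₜ[W.K] y (v i))) := by
      intro i
      rw [LinearMap.add_apply, TensorProduct.tmul_add, map_add, map_add]
    rw [Finset.sum_congr rfl fun i _ => h1 i, Finset.sum_add_distrib, hx ι f v h, hy ι f v h,
      add_zero]
  | mul x y _ _ hx hy =>
    intro ι _ f v h
    exact hx ι f (fun i => y (v i)) (hy ι f v h)

/-- **The lower bound for the space of periods, if all relations are stable.** -/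
theorem cmt_le (hd : ∀ Z ∈ mts T X, Z.baseChange ℂ ∈ dspan hrat C hs X) (n : ℕ) :
    finrank W.K (cmt T (pw X n)) ≤ finrank D.K (pspace (CL C hs (pw X n))) := by
  have hchar : CharZero D.K := (algebraMap D.K ℂ).charZero
  exact finrank_le_pspace (CL C hs (pw X n)) hrat _ fun b hb => rl_adj hrat hs hd n (cmt_adjoin hb)

section comp

variable (hH : ∀ (n j : ℕ) c, Pool.Agent.Q50.MTC.IsHodge T (pw X n) j c → Drb C (pw X n) j c)

include hrat hH in
/-- The endomorphisms of the Hodge structures correspond to endomorphisms of the de Rham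
cohomology. -/
theorem exists_pair_pw [IsAlgClosed D.K] {P : Module.End W.K (W.H (pw X n))}
    (hP : RespHodge (W.gr (pw X n)) (T.h (pw X n)) P) :
    ∃ P', (P, P') ∈ prs T C hs (pw X n) := by
  obtain ⟨h1, h2⟩ := respHodge_iff.1 hP
  obtain ⟨P', hP'⟩ := exists_rat_end hrat hs (P := P) (fun δ ν => by
    have h3 : zz hrat δ C hs (pw X n) ν = dpw W X n (zz hrat δ C hs X ν) :=
      cE_dpw (Dn_drv hrat δ C hs) ν
    rw [h3]
    exact resp_comm hP (zz_mts hrat δ hs hH ν)) (dg_of_dn h1.symm)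
  exact ⟨P', hP, hP'⟩

include hrat hH in
/-- **The upper bound for the space of periods.** -/
theorem cmt_ge [IsAlgClosed D.K] (n : ℕ) :
    finrank D.K (pspace (CL C hs (pw X n))) ≤ finrank W.K (cmt T (pw X n)) := by
  have hchar : CharZero D.K := (algebraMap D.K ℂ).charZero
  have hfin : FiniteDimensional D.K (W.H (pw X n) →+ D.H (pw X n)) := finite_add hrat
  have hA : ∀ p ∈ prs T C hs (pw X n), ∀ x, CL C hs (pw X n) (p.1.baseChange ℂ x) =
      p.2.baseChange ℂ (CL C hs (pw X n) x) := fun p hp => hp.2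
  refine (finrank_pspace (CL C hs (pw X n)) hrat).trans ?_
  refine (Submodule.finrank_mono (t := Pool.Agent.Q50.DR.comp (K := W.K) (prs T C hs (pw X n)))
    ?_).trans (finrank_comp (CL C hs (pw X n)) hrat hA (cmt T (pw X n)) fun b =>
      ⟨fun hb p hp x => hb _ hp.1 x, fun hb P hP x => ?_⟩)
  · rintro _ ⟨μ, rfl⟩
    exact cmu_comp (CL C hs (pw X n)) hA μ
  · obtain ⟨P', hP'⟩ := exists_pair_pw hrat hs hH hP
    exact hb _ hP' x

include hrat hH in
theorem trdeg_le_mts {t : ℕ} (ht : Algebra.trdeg D.K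
    (IntermediateField.adjoin D.K (Set.range (pd (CL C hs X)))) = t) :
    t ≤ finrank W.K (mts T X) := by
  obtain ⟨hfd, hle⟩ := finrank_span_le (K := W.K) (V := W.H X) (mts T X)
  have h1 : (t : Cardinal) ≤ finrank ℂ (dspan hrat C hs X) := by
    rw [← ht]
    exact trdeg_dspan hrat hs
  have h2 : t ≤ finrank ℂ (dspan hrat C hs X) := by exact_mod_cast h1
  exact (h2.trans (Submodule.finrank_mono (dspan_le hrat hs hH))).trans hle

include hH in
theorem mts_dspan (ht : Algebra.trdeg D.K (IntermediateField.adjoin D.K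
    (Set.range (pd (CL C hs X)))) = finrank W.K (mts T X)) :
    ∀ Z ∈ mts T X, Z.baseChange ℂ ∈ dspan hrat C hs X := by
  obtain ⟨hfd, hle⟩ := finrank_span_le (K := W.K) (V := W.H X) (mts T X)
  have h1 : (finrank W.K (mts T X) : Cardinal) ≤ finrank ℂ (dspan hrat C hs X) := by
    rw [← ht]
    exact trdeg_dspan hrat hs
  have h2 : finrank W.K (mts T X) ≤ finrank ℂ (dspan hrat C hs X) := by exact_mod_cast h1
  have h3 := Submodule.eq_of_le_of_finrank_le (dspan_le hrat hs hH) (hle.trans h2)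
  intro Z hZ
  rw [h3]
  exact Submodule.subset_span ⟨Z, hZ, rfl⟩

include hrat hH in
theorem exists_trdeg : ∃ t : ℕ, Algebra.trdeg D.K (IntermediateField.adjoin D.K
    (Set.range (pd (CL C hs X)))) = t := by
  have h1 : Algebra.trdeg D.K (IntermediateField.adjoin D.K
    (Set.range (pd (CL C hs X)))) ≤ finrank ℂ (dspan hrat C hs X) := trdeg_dspan hrat hs
  exact Cardinal.lt_aleph0.1 (h1.trans_lt (Cardinal.natCast_lt_aleph0))

end comp

end Pool.Agent.Q55.Pg
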