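import Pool.Agent.Q55.Pg.Dpw

/-!
# The Lie algebra of the Mumford-Tate group and its action on the cohomology of the powers
-/

open CategoryTheory AlgebraicGeometry TensorProduct

universe u

set_option linter.unusedSectionVars false

namespace Pool.Agent.Q55.Pg

open Module Pool.Agent.H204R3.SP Pool.Agent.W516.DR
open Pool.Agent.H914 Pool.Agent.H914.VarClass Pool.Agent.H914.VarClass.Obj
  Pool.Agent.H914.WeilCohomology
open Pool.Agent.Y133.Half Pool.Agent.Y121.AH Pool.Agent.Q50.FP Pool.Agent.W516.KC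
open Pool.Agent.Q50.DR
open Pool.Agent.Q50.MTC (HodgeDecomposition mt mtp mtp_semi mtp_br mtp_skew mem_mtp dn_mtp mt_le
  hodge_of_mtp kills_of_comm yy yy_apply yy_kills yy_mt mt_comm mt_dn mt_br hh hC hh_cl hh_of_kills
  yy_skew yy_dn em_dg cC_dg hh_drv exists_complement mt_kills hC_top exists_top)

variable {k : Type u} [Field k] {𝒱 : VarClass k} {ops : CycleOps 𝒱}
  {W D : WeilCohomology.{u, 0} ops} [Algebra W.K ℂ] [Algebra D.K ℂ] {T : HodgeDecomposition W}
  {X Y : 𝒱.Obj} {n : ℕ}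

/-- The Hodge operator on a power. -/
theorem yy_dpw (ν : ℂ →ₗ[W.K] W.K) : yy T (pw X n) ν = dpw W X n (yy T X ν) :=
  cE_dpw (hh_drv T) ν

theorem kills_smul_add {κ : Type} [Fintype κ] [DecidableEq κ]
    {φ : MultilinearMap W.K (fun _ : κ => W.H X) W.K} {A B : Module.End W.K (W.H X)}
    {a b : W.K} (hA : ∀ v, ∑ i, φ (Function.update v i (A (v i))) = a * φ v)
    (hB : ∀ v, ∑ i, φ (Function.update v i (B (v i))) = b * φ v) (r : W.K) (h : a = r * b) :
    Kills (A - r • B) φ := by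
  intro v
  have h1 : ∀ i, φ (Function.update v i ((A - r • B) (v i))) =
      φ (Function.update v i (A (v i))) - r * φ (Function.update v i (B (v i))) := by
    intro i
    rw [LinearMap.sub_apply, LinearMap.smul_apply, MultilinearMap.map_update_sub,
      MultilinearMap.map_update_smul, smul_eq_mul]
  rw [Finset.sum_congr rfl fun i _ => h1 i, Finset.sum_sub_distrib, ← Finset.mul_sum, hA v, hB v,
    h]
  ring

/-- An element of the Lie algebra kills the forms of the Hodge classes, after a correction by the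
degree operator. -/
theorem inMT_kills {Z : Module.End W.K (W.H X)} (hZ : InMT T X Z) :
    ∃ r : W.K, ∀ n M j c, M + j = (pw X n).dim → Pool.Agent.Q50.MTC.IsHodge T (pw X n) j c →
      Kills (Z - r • dg W X) (frm W X n c) := by
  obtain ⟨r, hr⟩ := hZ
  refine ⟨r / 2, fun n M j c hM hc => ?_⟩
  refine kills_smul_add (a := (M : W.K) * r) (b := 2 * (M : W.K)) (actsBy_iff.1 (hr n M j c hM hc))
    ((frm_dg_iff hM).2 hc.1) _ ?_
  ring

/-- The forms of the endomorphisms which respect the Hodge decomposition. -/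
theorem kills_resp {P : Module.End W.K (W.H (pw X n))}
    (hP : RespHodge (W.gr (pw X n)) (T.h (pw X n)) P) {Z : Module.End W.K (W.H X)}
    {r : W.K} (hZ : ∀ n M j c, M + j = (pw X n).dim →
      Pool.Agent.Q50.MTC.IsHodge T (pw X n) j c → Kills (Z - r • dg W X) (frm W X n c)) :
    Kills (dpw W X n (Z - r • dg W X)) (two ((prg W (pw X n)).comp P)) := by
  obtain ⟨h1, h2⟩ := respHodge_iff.1 hP
  rw [← kills_nst]
  have h3 : ∀ ν, Kills (yy T X ν) (nst W X n ((prg W (pw X n)).comp P)) := by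
    intro ν
    rw [kills_nst, ← yy_dpw]
    exact kills_comp_of_comm (yy_skew ν) (h2 ν)
  have h4 : Kills (dn W X) (nst W X n ((prg W (pw X n)).comp P)) := by
    rw [kills_nst, dpw_dn]
    exact kills_comp_of_comm dn_skew h1.symm
  have h5 : ∀ A ∈ mtp T X, Kills A (nst W X n ((prg W (pw X n)).comp P)) := by
    intro A hA
    obtain ⟨A', hA', r, rfl⟩ := mem_mtp.1 hA
    exact kills_add_smul (mt_kills h3 hA') h4 r
  let e : Fin (n + 1) ⊕ Fin (n + 1) ≃ Fin (n + 1 + n + 1) := finSumFinEquiv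
  obtain ⟨c, hc⟩ := frm_surjective (W := W) (X := X) (n := n + 1 + n)
    ((nst W X n ((prg W (pw X n)).comp P)).domDomCongr e)
  have h6 : Pool.Agent.Q50.MTC.IsHodge T (pw X (n + 1 + n)) ((n + 1) * X.dim) c :=
    hodge_of_mtp (by ring) fun A hA => by
      rw [hc]
      exact (kills_reindex e).2 (h5 A hA)
  have h7 := hZ (n + 1 + n) ((n + 1) * X.dim) _ c (by rw [dim_pw]; ring) h6
  rw [hc] at h7
  exact (kills_reindex e).1 h7

theorem resp_one (Y : 𝒱.Obj) : RespHodge (W.gr Y) (T.h Y) 1 :=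
  respHodge_iff.2 ⟨by rw [one_mul, mul_one], fun ν => by rw [one_mul, mul_one]⟩

/-- **The action of the Lie algebra commutes with the endomorphisms of the Hodge structure.** -/
theorem resp_comm {P : Module.End W.K (W.H (pw X n))}
    (hP : RespHodge (W.gr (pw X n)) (T.h (pw X n)) P) {Z : Module.End W.K (W.H X)}
    (hZ : InMT T X Z) : dpw W X n Z * P = P * dpw W X n Z := by
  obtain ⟨r, hr⟩ := inMT_kills hZ
  have h1 : IsSkew (prg W (pw X n)) (dpw W X n (Z - r • dg W X)) := by
    have h2 := kills_resp (n := n) (resp_one (T := T) (pw X n)) hr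
    rw [kills_two] at h2
    exact h2
  have h2 := comm_of_kills_comp prg_nondeg h1 (kills_resp hP hr)
  have h3 : dg W (pw X n) * P = P * dg W (pw X n) := dg_of_dn (respHodge_iff.1 hP).1.symm
  have h4 : dpw W X n Z = dpw W X n (Z - r • dg W X) + r • dg W (pw X n) := by
    rw [← dpw_dg, ← dpw_smul, ← dpw_add, sub_add_cancel]
  rw [h4, add_mul, mul_add, h2, smul_mul_assoc, mul_smul_comm, h3]

/-- The Lie algebra of the Mumford-Tate group. -/
def mts (T : HodgeDecomposition W) (X : 𝒱.Obj) : Submodule W.K (Module.End W.K (W.H X)) where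
  carrier := {Z | InMT T X Z}
  zero_mem' := by
    refine ⟨0, fun n M j c _ _ => actsBy_iff.2 fun v => ?_⟩
    rw [mul_zero, zero_mul]
    refine Finset.sum_eq_zero fun i _ => ?_
    rw [LinearMap.zero_apply]
    exact (frm W X n c).map_coord_zero i (Function.update_self _ _ _)
  add_mem' := by
    rintro A B ⟨r, hr⟩ ⟨s, hs⟩
    refine ⟨r + s, fun n M j c hM hc => actsBy_iff.2 fun v => ?_⟩
    have h1 := actsBy_iff.1 (hr n M j c hM hc) v
    have h2 := actsBy_iff.1 (hs n M j c hM hc) v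
    rw [mul_add, add_mul, ← h1, ← h2, ← Finset.sum_add_distrib]
    refine Finset.sum_congr rfl fun i _ => ?_
    rw [LinearMap.add_apply, MultilinearMap.map_update_add]
  smul_mem' := by
    rintro a A ⟨r, hr⟩
    refine ⟨a * r, fun n M j c hM hc => actsBy_iff.2 fun v => ?_⟩
    have h1 := actsBy_iff.1 (hr n M j c hM hc) v
    have h2 : (M : W.K) * (a * r) * frm W X n c v = a * ((M : W.K) * r * frm W X n c v) := by ring
    rw [h2, ← h1, Finset.mul_sum]
    refine Finset.sum_congr rfl fun i _ => ?_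
    rw [LinearMap.smul_apply, MultilinearMap.map_update_smul, smul_eq_mul]

theorem mem_mts {Z : Module.End W.K (W.H X)} : Z ∈ mts T X ↔ InMT T X Z := Iff.rfl

theorem dimEnd_mts : dimEnd (InMT T X) = finrank W.K (mts T X) := by
  have h2 : Submodule.span W.K {Z | InMT T X Z} = mts T X := Submodule.span_eq (mts T X)
  unfold dimEnd
  rw [h2]

theorem dimEnd_cmt (Y : 𝒱.Obj) :
    dimEnd (CommHodge (W.gr Y) (T.h Y)) = finrank W.K (cmt T Y) := by
  have h2 : Submodule.span W.K {Z | CommHodge (W.gr Y) (T.h Y) Z} = cmt T Y :=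
    Submodule.span_eq (cmt T Y)
  unfold dimEnd
  rw [h2]

theorem mem_cmt {Y : 𝒱.Obj} {b : Module.End W.K (W.H Y)} :
    b ∈ cmt T Y ↔ ∀ P, RespHodge (W.gr Y) (T.h Y) P → b * P = P * b :=
  ⟨fun h P hP => LinearMap.ext fun a => h P hP a, fun h P hP a => LinearMap.congr_fun (h P hP) a⟩

theorem dpw_cmt {Z : Module.End W.K (W.H X)} (hZ : Z ∈ mts T X) :
    dpw W X n Z ∈ cmt T (pw X n) := mem_cmt.2 fun _ hP => resp_comm hP hZ

theorem cmt_one {Y : 𝒱.Obj} : (1 : Module.End W.K (W.H Y)) ∈ cmt T Y :=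
  mem_cmt.2 fun P _ => by rw [one_mul, mul_one]

theorem cmt_mul {Y : 𝒱.Obj} {a b : Module.End W.K (W.H Y)} (ha : a ∈ cmt T Y)
    (hb : b ∈ cmt T Y) : a * b ∈ cmt T Y :=
  mem_cmt.2 fun P hP => by
    rw [mul_assoc, mem_cmt.1 hb P hP, ← mul_assoc, mem_cmt.1 ha P hP, mul_assoc]

theorem cmt_list {Y : 𝒱.Obj} : ∀ l : List (Module.End W.K (W.H Y)), (∀ a ∈ l, a ∈ cmt T Y) →
    l.prod ∈ cmt T Y
  | [], _ => by rw [List.prod_nil]; exact cmt_one
  | a :: l, h => by
    rw [List.prod_cons]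
    exact cmt_mul (h a (List.mem_cons_self ..)) (cmt_list l fun b hb => h b
      (List.mem_cons_of_mem _ hb))

/-- The elements of the Lie algebra kill the unit, modulo the classes of positive degree. -/
theorem mts_unit [Nontrivial (W.H X)] : ∃ l : W.H X, W.tr X l = 1 ∧
    ∀ Z ∈ mts T X, W.tr X (l * Z 1) = 0 := by
  obtain ⟨l, hl, hl1⟩ := Pool.Agent.Q50.MTC.exists_top (W := W) (X := X)
  refine ⟨l, hl1, fun Z hZ => ?_⟩
  obtain ⟨r, hr⟩ := hZ
  have h1 : Pool.Agent.Q50.MTC.IsHodge T (pw X 0) X.dim l := ⟨hl, hC_top (T := T) hl hl1⟩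
  have h2 := actsBy_iff.1 (hr 0 0 X.dim l (by rw [zero_add]; rfl) h1) (fun _ => 1)
  rw [Nat.cast_zero, zero_mul, zero_mul, Fin.sum_univ_one] at h2
  have h3 : ∀ v : Fin 1 → W.H X, W.tr X (l * v 0) = frm W X 0 l v :=
    fun v => congrArg (fun z => W.tr X (l * z)) (mpr_zero v).symm
  have h4 := (h3 (Function.update (fun _ => 1) 0 (Z 1))).trans h2
  rwa [Function.update_self] at h4

/-- The identity is not an element of the Lie algebra. -/
theorem one_notMem [Nontrivial (W.H X)] : (1 : Module.End W.K (W.H X)) ∉ mts T X := by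
  intro h
  obtain ⟨l, hl1, hl⟩ := mts_unit (T := T) (X := X)
  have h1 := hl 1 h
  rw [Module.End.one_apply, mul_one, hl1] at h1
  exact one_ne_zero h1

end Pool.Agent.Q55.Pg
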