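import Pool.Agent.Q50.DR.Dim

/-!
# Lower bounds for the dimension of the space of periods
-/

open TensorProduct

set_option linter.unusedSectionVars false

namespace Pool.Agent.Q55.Pg

open Module Pool.Agent.W516.DR Pool.Agent.Q50.DR

section rel

variable {K F V V' : Type} [Field K] [Field F] [AddCommGroup V] [Module K V]
  [FiniteDimensional K V] [AddCommGroup V'] [Module F V'] [FiniteDimensional F V']
  [Algebra K ℂ] [Algebra F ℂ] (e : (ℂ ⊗[K] V) ≃ₗ[ℂ] (ℂ ⊗[F] V'))

theorem xf_add (f g : V' →ₗ[F] F) (x : ℂ ⊗[F] V') : xf (f + g) x = xf f x + xf g x := by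
  induction x with
  | zero => simp only [map_zero, add_zero]
  | add a b ha hb =>
    rw [map_add, map_add, map_add, ha, hb]
    ring
  | tmul l v =>
    rw [xf_tmul, xf_tmul, xf_tmul, LinearMap.add_apply, map_add]
    ring

theorem xf_neg (f : V' →ₗ[F] F) (x : ℂ ⊗[F] V') : xf (-f) x = -xf f x := by
  induction x with
  | zero => rw [map_zero, map_zero, neg_zero]
  | add a b ha hb => rw [map_add, map_add, ha, hb, neg_add]
  | tmul l a => rw [xf_tmul, xf_tmul, LinearMap.neg_apply, map_neg, neg_mul]

theorem xf_smul (r : F) (f : V' →ₗ[F] F) (x : ℂ ⊗[F] V') :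
    xf (r • f) x = algebraMap F ℂ r * xf f x := by
  induction x with
  | zero => simp only [map_zero, mul_zero]
  | add a b ha hb =>
    rw [map_add, map_add, ha, hb]
    ring
  | tmul l v =>
    rw [xf_tmul, xf_tmul, LinearMap.smul_apply, smul_eq_mul, map_mul]
    ring

theorem xf_sum {ι : Type*} (s : Finset ι) (f : ι → (V' →ₗ[F] F)) (x : ℂ ⊗[F] V') :
    xf (∑ i ∈ s, f i) x = ∑ i ∈ s, xf (f i) x := by
  classical
  induction s using Finset.induction_on with
  | empty =>
    rw [Finset.sum_empty, Finset.sum_empty]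
    have h := xf_smul (0 : F) (0 : V' →ₗ[F] F) x
    rwa [zero_smul, map_zero, zero_mul] at h
  | insert i s hi ih => rw [Finset.sum_insert hi, Finset.sum_insert hi, xf_add, ih]

variable (hK : ∀ r : K, ∃ q : ℚ, (q : K) = r)

include hK in
/-- The space of the periods is spanned by the entries of a matrix. -/
theorem pspace_le [CharZero F] {ι κ : Type} [Fintype ι] [Fintype κ] (b : Basis ι K V)
    (φ : Basis κ F (V' →ₗ[F] F)) : pspace e ≤ Submodule.span F (Set.range fun p : κ × ι =>
      pd e (φ p.1, b p.2)) := by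
  classical
  unfold pspace
  rw [Submodule.span_le]
  rintro _ ⟨⟨f, v⟩, rfl⟩
  have h1 : ∀ (f : V' →ₗ[F] F) (i : ι), pd e (f, b i) ∈ Submodule.span F
      (Set.range fun p : κ × ι => pd e (φ p.1, b p.2)) := by
    intro f i
    have h2 : pd e (f, b i) = ∑ j, φ.repr f j • pd e (φ j, b i) := by
      have h3 : f = ∑ j, φ.repr f j • φ j := (φ.sum_repr f).symm
      change xf f (e ((1 : ℂ) ⊗ₜ[K] b i)) = _
      conv_lhs => rw [h3]
      rw [xf_sum]
      refine Finset.sum_congr rfl fun j _ => ?_
      rw [xf_smul, Algebra.smul_def]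
      rfl
    rw [h2]
    exact Submodule.sum_mem _ fun j _ => Submodule.smul_mem _ _
      (Submodule.subset_span ⟨(j, i), rfl⟩)
  have h4 : pd e (f, v) = ∑ i, pd e (f, b.repr v i • b i) := by
    change xf f (e ((1 : ℂ) ⊗ₜ[K] v)) = ∑ i, xf f (e ((1 : ℂ) ⊗ₜ[K] (b.repr v i • b i)))
    rw [← map_sum, ← map_sum, ← TensorProduct.tmul_sum, b.sum_repr]
  change pd e (f, v) ∈ _
  rw [h4]
  refine Submodule.sum_mem _ fun i _ => ?_
  obtain ⟨q, hq⟩ := hK (b.repr v i)
  have h5 : pd e (f, b.repr v i • b i) = (q : F) • pd e (f, b i) := by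
    change xf f (e ((1 : ℂ) ⊗ₜ[K] (b.repr v i • b i))) = (q : F) • xf f (e ((1 : ℂ) ⊗ₜ[K] b i))
    rw [← hq, TensorProduct.tmul_smul, ← algebraMap_smul (A := ℂ) (q : K), map_ratCast, map_smul,
      map_smul, smul_eq_mul]
    rw [Algebra.smul_def, map_ratCast]
  rw [h5]
  exact Submodule.smul_mem _ _ (h1 f i)

include hK in
theorem finite_pspace [CharZero F] : FiniteDimensional F (pspace e) := by
  have h1 := pspace_le e hK (Module.finBasis K V) (Module.finBasis F (V' →ₗ[F] F))
  have h2 : FiniteDimensional F (Submodule.span F (Set.range fun p :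
      Fin (finrank F (V' →ₗ[F] F)) × Fin (finrank K V) =>
      pd e (Module.finBasis F (V' →ₗ[F] F) p.1, Module.finBasis K V p.2))) :=
    FiniteDimensional.span_of_finite F (Set.finite_range _)
  exact Submodule.finiteDimensional_of_le h1

include hK in
/-- **If the relations between the periods are stable under `B`, then the space of the periods is at
least as large as `B`.** -/
theorem finrank_le_pspace [CharZero F] (B : Submodule K (Module.End K V))
    (hB : ∀ b ∈ B, ∀ (ι : Type) [Fintype ι] (f : ι → (V' →ₗ[F] F)) (v : ι → V),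
      ∑ i, xf (f i) (e ((1 : ℂ) ⊗ₜ[K] v i)) = 0 →
        ∑ i, xf (f i) (e ((1 : ℂ) ⊗ₜ[K] b (v i))) = 0) :
    finrank K B ≤ finrank F (pspace e) := by
  classical
  have hfin := finite_pspace e hK
  -- a basis consisting of periods
  obtain ⟨s, hs, hspan, hind⟩ := exists_linearIndependent F (Set.range (pd e))
  have hspan' : Submodule.span F s = pspace e := hspan
  have hsm : ∀ x : s, (x : ℂ) ∈ pspace e := fun x => hspan' ▸ Submodule.subset_span x.2
  have hind' : LinearIndependent F fun x : s => (⟨x, hsm x⟩ : pspace e) :=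
    LinearIndependent.of_comp (pspace e).subtype hind
  have hsf : Finite s := hind'.finite
  have : Fintype s := Fintype.ofFinite s
  have hcard : Fintype.card s ≤ finrank F (pspace e) := hind'.fintype_card_le_finrank
  refine le_trans ?_ hcard
  choose p hp using fun x : s => hs x.2
  let b := Module.finBasis K B
  -- the matrix
  let Θ : (Fin (finrank K B) → ℂ) →ₗ[ℂ] (s → ℂ) :=
    { toFun := fun l x => ∑ k, l k * xf (p x).1 (e ((1 : ℂ) ⊗ₜ[K] (b k : Module.End K V) (p x).2))
      map_add' := fun l l' => by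
        funext x
        simp only [Pi.add_apply, add_mul, Finset.sum_add_distrib]
      map_smul' := fun r l => by
        funext x
        simp only [Pi.smul_apply, smul_eq_mul, mul_assoc, Finset.mul_sum, RingHom.id_apply] }
  have hΘ : Function.Injective Θ := by
    rw [← LinearMap.ker_eq_bot, LinearMap.ker_eq_bot']
    intro l hl
    -- all forms and all vectors
    have h1 : ∀ (f : V' →ₗ[F] F) (v : V),
        ∑ k, l k * xf f (e ((1 : ℂ) ⊗ₜ[K] (b k : Module.End K V) v)) = 0 := by
      intro f v
      have h2 : pd e (f, v) ∈ Submodule.span F (Set.range ((↑) : s → ℂ)) := by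
        rw [Subtype.range_coe, hspan']
        exact Submodule.subset_span ⟨(f, v), rfl⟩
      obtain ⟨c, hc⟩ := (Submodule.mem_span_range_iff_exists_fun F).1 h2
      have h3 : ∀ k, xf f (e ((1 : ℂ) ⊗ₜ[K] (b k : Module.End K V) v)) =
          ∑ x : s, algebraMap F ℂ (c x) *
            xf (p x).1 (e ((1 : ℂ) ⊗ₜ[K] (b k : Module.End K V) (p x).2)) := by
        intro k
        have h4 := hB (b k) (b k).2 (Option s) (fun o => o.elim (-f) fun x => c x • (p x).1)
          (fun o => o.elim v fun x => (p x).2) (by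
            rw [Fintype.sum_option]
            change xf (-f) (e ((1 : ℂ) ⊗ₜ[K] v)) +
              ∑ x : s, xf (c x • (p x).1) (e ((1 : ℂ) ⊗ₜ[K] (p x).2)) = 0
            have h5 : xf (-f) (e ((1 : ℂ) ⊗ₜ[K] v)) = -pd e (f, v) := xf_neg _ _
            rw [h5, ← hc, neg_add_eq_zero]
            refine Finset.sum_congr rfl fun x _ => ?_
            rw [xf_smul, Algebra.smul_def]
            congr 1
            exact (hp x).symm)
        rw [Fintype.sum_option] at h4
        change xf (-f) (e ((1 : ℂ) ⊗ₜ[K] (b k : Module.End K V) v)) +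
          ∑ x : s, xf (c x • (p x).1) (e ((1 : ℂ) ⊗ₜ[K] (b k : Module.End K V) (p x).2)) = 0 at h4
        rw [xf_neg, neg_add_eq_zero] at h4
        rw [h4]
        refine Finset.sum_congr rfl fun x _ => ?_
        rw [xf_smul]
      rw [Finset.sum_congr rfl fun k _ => congrArg (fun z => l k * z) (h3 k)]
      simp only [Finset.mul_sum]
      rw [Finset.sum_comm]
      refine Finset.sum_eq_zero fun x _ => ?_
      have h7 := congrFun hl x
      change ∑ k, l k * xf (p x).1 (e ((1 : ℂ) ⊗ₜ[K] (b k : Module.End K V) (p x).2)) = 0 at h7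
      rw [← mul_zero (algebraMap F ℂ (c x)), ← h7, Finset.mul_sum]
      refine Finset.sum_congr rfl fun k _ => ?_
      ring
    funext k
    refine eq_zero_of_dual (k := K) (L := ℂ) fun ν => ?_
    -- the vector is zero
    have h8 : ∀ v, ∑ k, l k ⊗ₜ[K] (b k : Module.End K V) v = (0 : ℂ ⊗[K] V) := by
      intro v
      apply e.injective
      rw [map_zero]
      refine eq_zero_of_xf fun f => ?_
      rw [map_sum, map_sum, ← h1 f v]
      refine Finset.sum_congr rfl fun k _ => ?_
      have h9 : l k ⊗ₜ[K] (b k : Module.End K V) v =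
          l k • ((1 : ℂ) ⊗ₜ[K] (b k : Module.End K V) v) := by
        rw [TensorProduct.smul_tmul', smul_eq_mul, mul_one]
      rw [h9, map_smul, map_smul, smul_eq_mul]
    have h10 : ∑ k, ν (l k) • b k = 0 := by
      apply Subtype.ext
      refine LinearMap.ext fun v => ?_
      have h11 := congrArg (cmp ν) (h8 v)
      rw [map_sum, map_zero] at h11
      refine Eq.trans ?_ h11
      have h12 : ((∑ k, ν (l k) • b k : B) : Module.End K V) =
          ∑ k, ν (l k) • (b k : Module.End K V) := by
        have h13 := map_sum B.subtype (fun k => ν (l k) • b k) Finset.univ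
        simp only [map_smul, Submodule.subtype_apply] at h13
        exact h13
      rw [h12, LinearMap.sum_apply]
      refine Finset.sum_congr rfl fun k _ => ?_
      rw [cmp_tmul]
      rfl
    exact (Fintype.linearIndependent_iff.1 b.linearIndependent) (fun k => ν (l k)) h10 k
  have h14 := LinearMap.finrank_le_finrank_of_injective hΘ
  rwa [Module.finrank_fintype_fun_eq_card, Module.finrank_fintype_fun_eq_card,
    Fintype.card_fin] at h14

end rel

end Pool.Agent.Q55.Pg
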