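import Pool.Agent.Q55.Pg.Upb
import Pool.Agent.Q55.Pg.Low
import Pool.Agent.Q55.Pg.Dcm

/-!
# The relations between the periods
-/

open CategoryTheory AlgebraicGeometry TensorProduct

universe u

set_option linter.unusedSectionVars false

namespace Pool.Agent.Q55.Pg

open Module Pool.Agent.H204R3.SP Pool.Agent.W516.DR
open Pool.Agent.H914 Pool.Agent.H914.VarClass Pool.Agent.H914.VarClass.Obj
  Pool.Agent.H914.WeilCohomology
open Pool.Agent.Y133.Half Pool.Agent.Y121.AH Pool.Agent.Q50.FP Pool.Agent.W516.KC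
open Pool.Agent.Q50.DR
open Pool.Agent.Q50.MTC (HodgeDecomposition yy yy_mt hh_drv exists_complement)

variable {k : Type u} [Field k] {𝒱 : VarClass k} {ops : CycleOps 𝒱}
  {W D : WeilCohomology.{u, 0} ops} [Algebra W.K ℂ] [Algebra D.K ℂ] {T : HodgeDecomposition W}
  {X Y : 𝒱.Obj} {n : ℕ}

/-- The extension of the action on a power. -/
theorem bc_dpw (Z : Module.End W.K (W.H X)) :
    dpw (baseW W ℂ) X n (bc ℂ Z) = bc ℂ (dpw W X n Z) := by
  -- both sides agree on the rational classes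
  have h1 : ∀ v : Fin (n + 1) → W.H X, dpw (baseW W ℂ) X n (bc ℂ Z)
      (mpr (baseW W ℂ) X n fun i => em W ℂ (v i)) =
        bc ℂ (dpw W X n Z) (mpr (baseW W ℂ) X n fun i => em W ℂ (v i)) := by
    intro v
    have h2 : ∀ i, mpr (baseW W ℂ) X n (Function.update (fun j => em W ℂ (v j)) i
        (bc ℂ Z (em W ℂ (v i)))) = em W ℂ (mpr W X n (Function.update v i (Z (v i)))) := by
      intro i
      rw [bc_em, update_em, base_mpr]
    rw [dpw_mpr, Finset.sum_congr rfl fun i _ => h2 i, base_mpr, bc_em, dpw_mpr]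
    have h3 : ∀ (s : Finset (Fin (n + 1))) (f : Fin (n + 1) → W.H (pw X n)),
        em W ℂ (∑ i ∈ s, f i) = ∑ i ∈ s, em W ℂ (f i) := by
      intro s f
      exact (TensorProduct.tmul_sum (1 : ℂ) s f)
    rw [h3]
  let e := Module.finBasis W.K (W.H X)
  let eb : Basis (Fin (finrank W.K (W.H X))) (baseW W ℂ).K ((baseW W ℂ).H X) := e.baseChange ℂ
  have he : ∀ i, eb i = em W ℂ (e i) := fun i => Basis.baseChange_apply ℂ e i
  refine (wb eb n).ext fun w => ?_
  rw [← mpr_wb]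
  simp only [he]
  exact h1 _

/-- The comparison of a relation and an operator. -/
noncomputable def rl (C : Comparison (baseW W ℂ) (baseW D ℂ))
    (hs : ∀ z : ℂ, (show ℂ from C.s z) = z) (Y : 𝒱.Obj) {ι : Type} [Fintype ι]
    (f : ι → (D.H Y →ₗ[D.K] D.K)) (v : ι → W.H Y)
    (A : Module.End (baseW W ℂ).K ((baseW W ℂ).H Y)) : ℂ :=
  ∑ i, xf (f i) (CL C hs Y (A (em W ℂ (v i))))

section main

variable (hrat : ∀ r : W.K, ∃ q : ℚ, (q : W.K) = r) (δ : Derivation D.K ℂ ℂ)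
  {C : Comparison (baseW W ℂ) (baseW D ℂ)} (hs : ∀ z : ℂ, (show ℂ from C.s z) = z)

/-- The form `rl` is linear in the operator on `H(X)`. -/
noncomputable def rlL (C : Comparison (baseW W ℂ) (baseW D ℂ))
    (hs : ∀ z : ℂ, (show ℂ from C.s z) = z) (X : 𝒱.Obj) (n : ℕ) {ι : Type} [Fintype ι]
    (f : ι → (D.H (pw X n) →ₗ[D.K] D.K)) (v : ι → W.H (pw X n)) :
    Module.End ℂ (ℂ ⊗[W.K] W.H X) →ₗ[ℂ] ℂ where
  toFun A := rl C hs (pw X n) f v
    (dpw (baseW W ℂ) X n (show Module.End (baseW W ℂ).K ((baseW W ℂ).H X) from A))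
  map_add' A B := by
    have h1 : dpw (baseW W ℂ) X n (show Module.End (baseW W ℂ).K ((baseW W ℂ).H X) from A + B) =
        dpw (baseW W ℂ) X n (show Module.End (baseW W ℂ).K ((baseW W ℂ).H X) from A) +
          dpw (baseW W ℂ) X n (show Module.End (baseW W ℂ).K ((baseW W ℂ).H X) from B) :=
      dpw_add (W := baseW W ℂ) _ _
    rw [h1]
    unfold rl
    rw [← Finset.sum_add_distrib]
    refine Finset.sum_congr rfl fun i _ => ?_
    rw [LinearMap.add_apply]
    exact (congrArg (xf (f i)) (map_add (CL C hs (pw X n)) _ _)).trans (map_add (xf (f i)) _ _)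
  map_smul' r A := by
    have h1 : dpw (baseW W ℂ) X n (show Module.End (baseW W ℂ).K ((baseW W ℂ).H X) from r • A) =
        (show (baseW W ℂ).K from r) • dpw (baseW W ℂ) X n
          (show Module.End (baseW W ℂ).K ((baseW W ℂ).H X) from A) :=
      dpw_smul (W := baseW W ℂ) _ _
    rw [h1]
    unfold rl
    rw [RingHom.id_apply, smul_eq_mul, Finset.mul_sum]
    refine Finset.sum_congr rfl fun i _ => ?_
    rw [LinearMap.smul_apply]
    refine (congrArg (xf (f i)) (map_smul (CL C hs (pw X n)) r _)).trans ?_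
    exact map_smul (xf (f i)) r _

/-- The derivative of a relation. -/
theorem rl_deriv (Y : 𝒱.Obj) {ι : Type} [Fintype ι] (f : ι → (D.H Y →ₗ[D.K] D.K))
    (v : ι → W.H Y) (h : ∑ i, xf (f i) (CL C hs Y ((1 : ℂ) ⊗ₜ[W.K] v i)) = 0) :
    rl C hs Y f v (Dd hrat δ C hs Y) = 0 := by
  have h1 : ∀ i, δ (xf (f i) (CL C hs Y ((1 : ℂ) ⊗ₜ[W.K] v i))) =
      xf (f i) (CL C hs Y (Dd hrat δ C hs Y (em W ℂ (v i)))) :=
    fun i => per_deriv hrat δ C hs (X := Y) (f i, v i)
  have h2 := congrArg δ h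
  rw [map_sum, map_zero, Finset.sum_congr rfl fun i _ => h1 i] at h2
  exact h2

/-- The operators for the derivations of `ℂ`. -/
def dspan (C : Comparison (baseW W ℂ) (baseW D ℂ)) (hs : ∀ z : ℂ, (show ℂ from C.s z) = z)
    (X : 𝒱.Obj) : Submodule ℂ (Module.End ℂ (ℂ ⊗[W.K] W.H X)) :=
  Submodule.span ℂ (Set.range fun δ : Derivation D.K ℂ ℂ =>
    (show Module.End ℂ (ℂ ⊗[W.K] W.H X) from Dd hrat δ C hs X))

/-- The relations are stable under the elements of the span. -/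
theorem rl_dspan {ι : Type} [Fintype ι] (f : ι → (D.H (pw X n) →ₗ[D.K] D.K))
    (v : ι → W.H (pw X n)) (h : ∑ i, xf (f i) (CL C hs (pw X n) ((1 : ℂ) ⊗ₜ[W.K] v i)) = 0)
    {A : Module.End ℂ (ℂ ⊗[W.K] W.H X)} (hA : A ∈ dspan hrat C hs X) :
    rlL C hs X n f v A = 0 := by
  have h1 : dspan hrat C hs X ≤ LinearMap.ker (rlL C hs X n f v) := by
    unfold dspan
    rw [Submodule.span_le]
    rintro _ ⟨δ, rfl⟩
    change rl C hs (pw X n) f v (dpw (baseW W ℂ) X n (Dd hrat δ C hs X)) = 0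
    rw [← drv_dpw (Dd_drv hrat δ C hs)]
    exact rl_deriv hrat δ hs (pw X n) f v h
  exact h1 hA

theorem rl_stable {ι : Type} [Fintype ι] (f : ι → (D.H (pw X n) →ₗ[D.K] D.K))
    (v : ι → W.H (pw X n)) (h : ∑ i, xf (f i) (CL C hs (pw X n) ((1 : ℂ) ⊗ₜ[W.K] v i)) = 0)
    {Z : Module.End W.K (W.H X)} (hZ : Z.baseChange ℂ ∈ dspan hrat C hs X) :
    ∑ i, xf (f i) (CL C hs (pw X n) ((1 : ℂ) ⊗ₜ[W.K] dpw W X n Z (v i))) = 0 := by
  have h1 := rl_dspan hrat hs f v h hZ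
  have h2 : rlL C hs X n f v (Z.baseChange ℂ) = rl C hs (pw X n) f v
      (dpw (baseW W ℂ) X n (bc ℂ Z)) := rfl
  rw [h2, bc_dpw] at h1
  unfold rl at h1
  refine Eq.trans ?_ h1
  refine Finset.sum_congr rfl fun i _ => ?_
  rw [bc_em]
  rfl

end main

end Pool.Agent.Q55.Pg
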