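import Pool.Agent.Q55.Pg.Rlp
import Pool.Agent.Q55.Pg.Grw
import Pool.Agent.Q55.Pg.Mts

/-!
# The upper bound for the dimension of the space of the periods of the powers
-/

open CategoryTheory AlgebraicGeometry TensorProduct

universe u

set_option linter.unusedSectionVars false

namespace Pool.Agent.Q55.Pg

open Module Pool.Agent.W516.DR
open Pool.Agent.H914 Pool.Agent.H914.VarClass Pool.Agent.H914.VarClass.Obj
  Pool.Agent.H914.WeilCohomology
open Pool.Agent.Y133.Half Pool.Agent.Y121.AH Pool.Agent.Q50.FP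
open Pool.Agent.Q50.DR
open Pool.Agent.Q50.MTC (HodgeDecomposition)

variable {k : Type u} [Field k] {𝒱 : VarClass k} {ops : CycleOps 𝒱}
  {W D : WeilCohomology.{u, 0} ops} [Algebra W.K ℂ] [Algebra D.K ℂ]
  {X Y : 𝒱.Obj} {n : ℕ}

theorem xf_smul_em (f : D.H Y →ₗ[D.K] D.K) (l : (baseW D ℂ).K) (a : D.H Y) :
    xf f (show ℂ ⊗[D.K] D.H Y from l • em D ℂ a) =
      (show ℂ from l) * algebraMap D.K ℂ (f a) := by
  have h3 : xf f ((show ℂ from l) • ((1 : ℂ) ⊗ₜ[D.K] a)) =
      (show ℂ from l) * algebraMap D.K ℂ (f a) := by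
    rw [map_smul, xf_tmul, mul_one, smul_eq_mul]
  exact h3

theorem mpr_sum {κ : Type} [Fintype κ] [DecidableEq κ] (d : κ → D.H X)
    (g : Fin (n + 1) → κ → (baseW D ℂ).K) :
    mpr (baseW D ℂ) X n (fun i => ∑ j, g i j • em D ℂ (d j)) =
      ∑ r : Fin (n + 1) → κ, (∏ i, g i (r i)) • em D ℂ (mpr D X n fun i => d (r i)) := by
  rw [MultilinearMap.map_sum]
  refine Finset.sum_congr rfl fun r _ => ?_
  rw [MultilinearMap.map_smul_univ (mpr (baseW D ℂ) X n) (fun i => g i (r i))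
    (fun i => em D ℂ (d (r i))), base_mpr]

theorem xf_mpr {κ : Type} [Fintype κ] [DecidableEq κ] (f : D.H (pw X n) →ₗ[D.K] D.K)
    (d : κ → D.H X) (g : Fin (n + 1) → κ → (baseW D ℂ).K) :
    xf f (show ℂ ⊗[D.K] D.H (pw X n) from
      mpr (baseW D ℂ) X n (fun i => ∑ j, g i j • em D ℂ (d j))) =
      ∑ r : Fin (n + 1) → κ, (∏ i, (show ℂ from g i (r i))) *
        algebraMap D.K ℂ (f (mpr D X n fun i => d (r i))) := by
  rw [mpr_sum]
  refine (map_sum (xf f) (fun r : Fin (n + 1) → κ => (show ℂ ⊗[D.K] D.H (pw X n) from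
    (∏ i, g i (r i)) • em D ℂ (mpr D X n fun i => d (r i)))) Finset.univ).trans ?_
  exact Finset.sum_congr rfl fun r _ => xf_smul_em f _ _

variable {C : Comparison (baseW W ℂ) (baseW D ℂ)} (hs : ∀ z : ℂ, (show ℂ from C.s z) = z)

/-- The period matrix. -/
noncomputable def pm (C : Comparison (baseW W ℂ) (baseW D ℂ))
    (hs : ∀ z : ℂ, (show ℂ from C.s z) = z) {ι κ : Type} (b : Basis ι W.K (W.H X))
    (d : Basis κ D.K (D.H X)) (p : κ × ι) : ℂ := pd (CL C hs X) (d.coord p.1, b p.2)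

theorem ce_em {ι κ : Type} [Fintype κ] (b : Basis ι W.K (W.H X))
    (d : Basis κ D.K (D.H X)) (i : ι) : C.e X (em W ℂ (b i)) =
      ∑ j, (show (baseW D ℂ).K from pm C hs b d (j, i)) • em D ℂ (d j) := by
  have h1 := (d.baseChange ℂ).sum_repr (CL C hs X ((1 : ℂ) ⊗ₜ[W.K] b i))
  have h2 : ∀ j, (d.baseChange ℂ).repr (CL C hs X ((1 : ℂ) ⊗ₜ[W.K] b i)) j •
      (d.baseChange ℂ) j = pm C hs b d (j, i) • ((1 : ℂ) ⊗ₜ[D.K] d j) := by
    intro j
    rw [repr_eq_xf, Basis.baseChange_apply]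
    rfl
  rw [Finset.sum_congr rfl fun j _ => h2 j] at h1
  exact h1.symm

theorem pspace_words {ι κ : Type} [Fintype ι] [DecidableEq ι] [Fintype κ] [DecidableEq κ]
    (hrat : ∀ r : W.K, ∃ q : ℚ, (q : W.K) = r) [CharZero D.K]
    (b : Basis ι W.K (W.H X)) (d : Basis κ D.K (D.H X)) (n : ℕ) :
    pspace (CL C hs (pw X n)) ≤ Submodule.span D.K (wordp (pm C hs b d) (n + 1)) := by
  refine (pspace_le (CL C hs (pw X n)) hrat (wb b n)
    (Module.finBasis D.K (D.H (pw X n) →ₗ[D.K] D.K))).trans ?_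
  rw [Submodule.span_le]
  rintro _ ⟨⟨j, w⟩, rfl⟩
  set f := Module.finBasis D.K (D.H (pw X n) →ₗ[D.K] D.K) j with hf
  have h1 : pd (CL C hs (pw X n)) (f, wb b n w) = xf f (show ℂ ⊗[D.K] D.H (pw X n) from
      mpr (baseW D ℂ) X n (fun i => ∑ j,
        (show (baseW D ℂ).K from pm C hs b d (j, w i)) • em D ℂ (d j))) := by
    have h2 : C.e (pw X n) (em W ℂ (wb b n w)) = mpr (baseW D ℂ) X n (fun i => ∑ j,
        (show (baseW D ℂ).K from pm C hs b d (j, w i)) • em D ℂ (d j)) := by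
      rw [← mpr_wb, ← base_mpr, Pool.Agent.Q50.MTC.cmp_mpr]
      congr 1
      funext i
      exact ce_em hs b d (w i)
    exact congrArg (fun z : (baseW D ℂ).H (pw X n) =>
      xf f (show ℂ ⊗[D.K] D.H (pw X n) from z)) h2
  change pd (CL C hs (pw X n)) (f, wb b n w) ∈ Submodule.span D.K (wordp (pm C hs b d) (n + 1))
  rw [h1, xf_mpr]
  refine Submodule.sum_mem _ fun r _ => ?_
  rw [mul_comm, ← Algebra.smul_def]
  refine Submodule.smul_mem _ _ (Submodule.subset_span ⟨fun i => (r i, w i), rfl⟩)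

theorem adjoin_pm {ι κ : Type} [Fintype ι] [Fintype κ]
    (hrat : ∀ r : W.K, ∃ q : ℚ, (q : W.K) = r) [CharZero D.K]
    (b : Basis ι W.K (W.H X)) (d : Basis κ D.K (D.H X)) :
    IntermediateField.adjoin D.K (Set.range (pd (CL C hs X))) =
      IntermediateField.adjoin D.K (Set.range (pm C hs b d)) := by
  classical
  apply le_antisymm
  · rw [IntermediateField.adjoin_le_iff]
    have h1 := pspace_le (CL C hs X) hrat b d.dualBasis
    have h2 : (Set.range fun p : κ × ι => pd (CL C hs X) (d.dualBasis p.1, b p.2)) =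
        Set.range (pm C hs b d) := by
      congr 1
      funext p
      rw [Basis.coe_dualBasis]
      rfl
    rw [h2] at h1
    intro x hx
    have h3 : x ∈ Submodule.span D.K (Set.range (pm C hs b d)) :=
      h1 (Submodule.subset_span hx)
    have h4 : Submodule.span D.K (Set.range (pm C hs b d)) ≤
        Subalgebra.toSubmodule (IntermediateField.adjoin D.K
          (Set.range (pm C hs b d))).toSubalgebra := by
      rw [Submodule.span_le]
      exact IntermediateField.subset_adjoin _ _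
    exact h4 h3
  · rw [IntermediateField.adjoin_le_iff]
    rintro _ ⟨p, rfl⟩
    exact IntermediateField.subset_adjoin _ _ ⟨_, rfl⟩

/-- **The upper bound.** -/
theorem pspace_growth (hrat : ∀ r : W.K, ∃ q : ℚ, (q : W.K) = r) {t : ℕ}
    (ht : Algebra.trdeg D.K (IntermediateField.adjoin D.K (Set.range (pd (CL C hs X)))) = t) :
    ∃ A : ℕ, ∀ n, finrank D.K (pspace (CL C hs (pw X n))) ≤ A * (n + 1) ^ t := by
  classical
  have hchar : CharZero D.K := (algebraMap D.K ℂ).charZero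
  let b := Module.finBasis W.K (W.H X)
  let d := Module.finBasis D.K (D.H X)
  rw [adjoin_pm hs hrat b d] at ht
  obtain ⟨A, hA⟩ := growth_trdeg (pm C hs b d) ht
  refine ⟨A * 2 ^ t, fun n => ?_⟩
  have hfd : FiniteDimensional D.K (Submodule.span D.K (wordp (pm C hs b d) (n + 1))) :=
    FiniteDimensional.span_of_finite D.K (Set.finite_range _)
  refine (Submodule.finrank_mono (pspace_words hs hrat b d n)).trans ((hA (n + 1)).trans ?_)
  rw [mul_assoc, ← mul_pow]
  exact Nat.mul_le_mul_left _ (Nat.pow_le_pow_left (by omega) t)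

end Pool.Agent.Q55.Pg
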